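import Pool.Agent.H29.Limit
import Pool.Agent.H92.Fin
import Pool.Agent.H92.Coef

set_option autoImplicit false

open MeasureTheory Filter Topology Set

namespace Pool.Agent.H92

/-! ### Facts about atoms -/

section atomsec

variable {G : Type*}

theorem atoms_apply {t : ℕ → G} (ht : Function.Injective t) (i : ℕ) : atoms t (t i) = (cf i : ℂ) :=
  ht.extend_apply _ _ i

theorem atoms_of_not {t : ℕ → G} {x : G} (hx : ¬ ∃ i, t i = x) : atoms t x = 0 :=
  Function.extend_apply' _ _ _ hx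

theorem support_norm_atoms (t : ℕ → G) :
    Function.support (fun x => ‖atoms t x‖) ⊆ Set.range t := by
  intro x hx
  by_contra hcon
  refine hx ?_
  change ‖atoms t x‖ = 0
  rw [atoms_of_not (fun ⟨i, hi⟩ => hcon ⟨i, hi⟩), norm_zero]

theorem norm_atoms_comp {t : ℕ → G} (ht : Function.Injective t) :
    (fun x => ‖atoms t x‖) ∘ t = cf := by
  funext i
  simp only [Function.comp_apply]
  rw [atoms_apply ht, Complex.norm_real, Real.norm_eq_abs, abs_of_nonneg (cf_nonneg i)]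

theorem summable_atoms {t : ℕ → G} (ht : Function.Injective t) :
    Summable fun x => ‖atoms t x‖ := by
  have h := norm_atoms_comp ht
  have h2 : Summable ((fun x => ‖atoms t x‖) ∘ t) := by
    rw [h]
    exact cf_summable
  refine (ht.summable_iff ?_).1 h2
  intro x hx
  by_contra hcon
  exact hx (support_norm_atoms t hcon)

theorem tsum_atoms {t : ℕ → G} (ht : Function.Injective t) : ∑' x, ‖atoms t x‖ = 10 := by
  rw [← ht.tsum_eq (support_norm_atoms t)]
  have h := norm_atoms_comp ht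
  have h2 : ∀ i, ‖atoms t (t i)‖ = cf i := fun i => congrFun h i
  simp_rw [h2]
  have := tl_0
  unfold tl at this
  simpa using this

theorem atoms_zero_of_lt {t : ℕ → ℚ} (ht : ∀ i, 0 < t i) {q : ℚ} (hq : q ≤ 0) : atoms t q = 0 :=
  atoms_of_not fun ⟨i, hi⟩ => absurd (ht i) (by rw [hi]; exact not_lt.2 hq)

end atomsec

/-! ### Damping over a field -/

section dampsec

variable {K : Type*} [Field K] [LinearOrder K] [IsStrictOrderedRing K]

theorem norm_dmp_le {w : K} (hw : 0 < w) {x : K} (hx : 0 ≤ x) : ‖dmp w 1 x‖ ≤ 1 := by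
  unfold dmp
  split_ifs with h
  · rw [Complex.norm_exp]
    have h1 : 0 ≤ lam w x := lam_nonneg hw h hx
    simp [h1]
  · simp

theorem norm_damp_le {w : K} (hw : 0 < w) {h : K → ℂ} (h0 : ∀ x < 0, h x = 0) (x : K) :
    ‖damp w 1 h x‖ ≤ ‖h x‖ := by
  unfold damp
  rcases lt_or_ge x 0 with hx | hx
  · simp [h0 x hx]
  · rw [norm_mul]
    exact mul_le_of_le_one_right (norm_nonneg _) (norm_dmp_le hw hx)

theorem summable_damp {w : K} (hw : 0 < w) {h : K → ℂ} (h0 : ∀ x < 0, h x = 0)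
    (hs : Summable fun x => ‖h x‖) : Summable fun x => ‖damp w 1 h x‖ :=
  Summable.of_nonneg_of_le (fun _ => norm_nonneg _) (norm_damp_le hw h0) hs

theorem dmp_add {w : K} (hw : 0 < w) {r s : K} (hr : 0 ≤ r) (hs : 0 ≤ s) :
    dmp w 1 (r + s) = dmp w 1 r * dmp w 1 s := by
  unfold dmp
  by_cases hr' : r ∈ OO w
  · by_cases hs' : s ∈ OO w
    · rw [if_pos hr', if_pos hs', if_pos ((OO w).add_mem hr' hs'), map_add, ← Complex.exp_add]
      congr 1
      push_cast
      ring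
    · rw [if_neg hs', mul_zero, if_neg]
      intro h
      exact hs' (OO_convex hw h (by rw [abs_of_nonneg hs, abs_of_nonneg (add_nonneg hr hs)]; linarith))
  · rw [if_neg hr', zero_mul, if_neg]
    intro h
    exact hr' (OO_convex hw h (by rw [abs_of_nonneg hr, abs_of_nonneg (add_nonneg hr hs)]; linarith))

theorem damp_conv {w : K} (hw : 0 < w) {g h : K → ℂ} (g0 : ∀ x < 0, g x = 0)
    (h0 : ∀ x < 0, h x = 0) : damp w 1 (conv g h) = conv (damp w 1 g) (damp w 1 h) := by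
  funext x
  have h1 := conv_mul_char g h (dmp w 1) (fun r s hr hs => by
    refine dmp_add hw ?_ ?_
    · by_contra hcon
      exact hr (g0 r (not_le.1 hcon))
    · by_contra hcon
      exact hs (h0 s (not_le.1 hcon))) x
  exact h1.symm

theorem ft_damp_conv {w : K} (hw : 0 < w) {g h : K → ℂ} (g0 : ∀ x < 0, g x = 0)
    (h0 : ∀ x < 0, h x = 0) (gs : Summable fun x => ‖g x‖) (hs : Summable fun x => ‖h x‖)
    (ω : DualG K) :
    ft (damp w 1 (conv g h)) ω = ft (damp w 1 g) ω * ft (damp w 1 h) ω := by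
  rw [damp_conv hw g0 h0, ft_conv (summable_damp hw g0 gs) (summable_damp hw h0 hs)]

/-- values of the damping factor at the atoms -/
theorem dmp_t {m : ℕ} {t : ℕ → K} (tpos : ∀ i, 0 < t i) (tanti : StrictAnti t)
    (tsep : ∀ i, 6 * m ≤ i + 1 → ∀ n : ℕ, (n : K) * t (i + 1) < t i) (i : ℕ) :
    (i ≤ 6 * m → dmp (t (6 * m + 1)) 1 (t i) = 0) ∧
    (6 * m + 2 ≤ i → dmp (t (6 * m + 1)) 1 (t i) = 1) := by
  constructor
  · intro hi
    unfold dmp
    rw [if_neg]
    intro hO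
    rw [mem_OO_iff (tpos _)] at hO
    obtain ⟨n, hn⟩ := hO
    rw [abs_of_pos (tpos i)] at hn
    have h1 := tsep (6 * m) (by omega) n
    have h2 : t (6 * m) ≤ t i := tanti.antitone hi
    exact absurd (h1.trans_le h2) (not_lt.2 hn)
  · intro hi
    have h2 : t i ≤ t (6 * m + 2) := tanti.antitone hi
    have h3 : ∀ n : ℕ, (n : K) * |t i| < t (6 * m + 1) := by
      intro n
      rw [abs_of_pos (tpos i)]
      exact (mul_le_mul_of_nonneg_left h2 (Nat.cast_nonneg n)).trans_lt (tsep (6 * m + 1) (by omega) n)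
    have hO : t i ∈ OO (t (6 * m + 1)) := by
      rw [mem_OO_iff (tpos _)]
      refine ⟨1, ?_⟩
      have := h3 1
      rw [Nat.cast_one, one_mul] at this ⊢
      exact this.le
    unfold dmp
    rw [if_pos hO, (lam_eq_zero_iff (tpos _) hO).2 h3]
    simp

/-- the transform of the damped atoms -/
theorem ft_damp_atoms {m : ℕ} {t : ℕ → K} (tpos : ∀ i, 0 < t i) (tanti : StrictAnti t)
    (tsep : ∀ i, 6 * m ≤ i + 1 → ∀ n : ℕ, (n : K) * t (i + 1) < t i) (ω : DualG K) :
    ft (damp (t (6 * m + 1)) 1 (atoms t)) ω =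
      ∑' j, (cf (6 * m + 2 + j) : ℂ) * ((ω (t (6 * m + 2 + j)) : Circle) : ℂ) := by
  have hinj : Function.Injective t := tanti.injective
  unfold ft
  have hsupp : Function.support (fun x => damp (t (6 * m + 1)) 1 (atoms t) x *
      ((ω x : Circle) : ℂ)) ⊆ Set.range (fun j => t (6 * m + 2 + j)) := by
    intro x hx
    by_contra hcon
    refine hx ?_
    change damp (t (6 * m + 1)) 1 (atoms t) x * ((ω x : Circle) : ℂ) = 0
    by_cases hex : ∃ i, t i = x
    · obtain ⟨i, rfl⟩ := hex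
      have hi : i < 6 * m + 2 := by
        by_contra hlt
        refine hcon ⟨i - (6 * m + 2), ?_⟩
        change t (6 * m + 2 + (i - (6 * m + 2))) = t i
        congr 1
        omega
      unfold damp
      rw [atoms_apply hinj]
      rcases Nat.lt_or_ge (6 * m) i with h1 | h1
      · have : i = 6 * m + 1 := by omega
        subst this
        rw [cf_mul6_add, cf_1]
        simp
      · rw [(dmp_t tpos tanti tsep i).1 h1]
        simp
    · unfold damp
      rw [atoms_of_not hex]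
      simp
  have hinj2 : Function.Injective (fun j => t (6 * m + 2 + j)) := fun a b hab => by
    have := hinj hab
    omega
  rw [← hinj2.tsum_eq hsupp]
  refine tsum_congr fun j => ?_
  unfold damp
  rw [atoms_apply hinj, (dmp_t tpos tanti tsep _).2 (by omega), mul_one]

theorem exists_zero {m : ℕ} {t : ℕ → K} (tpos : ∀ i, 0 < t i) (tanti : StrictAnti t)
    (tsep : ∀ i, 6 * m ≤ i + 1 → ∀ n : ℕ, (n : K) * t (i + 1) < t i) :
    ∃ ω : DualG K, ft (damp (t (6 * m + 1)) 1 (atoms t)) ω = 0 := by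
  have hli : LinearIndependent ℚ (fun i => t (6 * m + 2 + i)) :=
    li_t_shift (6 * m + 2) tpos (fun i hi n => tsep i (by omega) n)
  obtain ⟨L, hL⟩ := exists_lin hli (fun i => if i = 0 then Real.pi else if i = 2 then 2 * Real.pi / 3
    else if i = 3 then -(2 * Real.pi / 3) else 0)
  refine ⟨expi L.toAddMonoidHom 1, ?_⟩
  rw [ft_damp_atoms tpos tanti tsep]
  have hval : ∀ j, ((expi L.toAddMonoidHom 1 (t (6 * m + 2 + j)) : Circle) : ℂ) =
      Complex.exp (((if j = 0 then Real.pi else if j = 2 then 2 * Real.pi / 3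
        else if j = 3 then -(2 * Real.pi / 3) else 0 : ℝ)) * Complex.I) := by
    intro j
    rw [expi_apply]
    have : L.toAddMonoidHom (t (6 * m + 2 + j)) = L (t (6 * m + 2 + j)) := rfl
    rw [this, hL j, one_mul]
  simp_rw [hval]
  have hsum : Summable (fun j => (cf (6 * m + 2 + j) : ℂ) *
      Complex.exp (((if j = 0 then Real.pi else if j = 2 then 2 * Real.pi / 3
        else if j = 3 then -(2 * Real.pi / 3) else 0 : ℝ)) * Complex.I)) := by
    refine Summable.of_norm ?_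
    have : ∀ j, ‖(cf (6 * m + 2 + j) : ℂ) *
      Complex.exp (((if j = 0 then Real.pi else if j = 2 then 2 * Real.pi / 3
        else if j = 3 then -(2 * Real.pi / 3) else 0 : ℝ)) * Complex.I)‖ = cf (6 * m + 2 + j) := by
      intro j
      rw [norm_mul, Complex.norm_exp_ofReal_mul_I, mul_one, Complex.norm_real, Real.norm_eq_abs,
        abs_of_nonneg (cf_nonneg _)]
    simp_rw [this]
    exact summable_tl _
  rw [← hsum.sum_add_tsum_nat_add 4]
  have htail : ∑' j, ((cf (6 * m + 2 + (j + 4)) : ℂ) *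
      Complex.exp (((if j + 4 = 0 then Real.pi else if j + 4 = 2 then 2 * Real.pi / 3
        else if j + 4 = 3 then -(2 * Real.pi / 3) else 0 : ℝ)) * Complex.I)) = ((1 / 10 ^ m : ℝ) : ℂ) := by
    have h1 : ∀ j : ℕ, ((cf (6 * m + 2 + (j + 4)) : ℂ) *
      Complex.exp (((if j + 4 = 0 then Real.pi else if j + 4 = 2 then 2 * Real.pi / 3
        else if j + 4 = 3 then -(2 * Real.pi / 3) else 0 : ℝ)) * Complex.I)) =
        ((cf (6 * m + 6 + j) : ℝ) : ℂ) := by
      intro j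
      rw [if_neg (by omega), if_neg (by omega), if_neg (by omega)]
      have : 6 * m + 2 + (j + 4) = 6 * m + 6 + j := by ring
      rw [this]
      simp
    simp_rw [h1]
    rw [← Complex.ofReal_tsum]
    congr 1
    have := tl_mul6_add m 6
    rw [tl_6] at this
    exact this
  rw [htail, Finset.sum_range_succ, Finset.sum_range_succ, Finset.sum_range_succ,
    Finset.sum_range_one]
  have c0 : cf (6 * m + 2 + 0) = 1 / 10 ^ m := by rw [add_assoc, cf_mul6_add, add_zero, cf_2]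
  have c1 : cf (6 * m + 2 + 1) = 1 / 10 ^ m := by rw [add_assoc, cf_mul6_add, show 2 + 1 = 3 from rfl, cf_3]
  have c2 : cf (6 * m + 2 + 2) = 1 / 10 ^ m := by rw [add_assoc, cf_mul6_add, show 2 + 2 = 4 from rfl, cf_4]
  have c3 : cf (6 * m + 2 + 3) = 1 / 10 ^ m := by rw [add_assoc, cf_mul6_add, show 2 + 3 = 5 from rfl, cf_5]
  rw [c0, c1, c2, c3]
  have e1 : Complex.exp ((2 * Real.pi / 3 : ℝ) * Complex.I) = -1 / 2 + (Real.sqrt 3 / 2 : ℝ) * Complex.I := by
    rw [Complex.exp_mul_I, ← Complex.ofReal_cos, ← Complex.ofReal_sin]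
    have h1 : Real.cos (2 * Real.pi / 3) = -1 / 2 := by
      rw [show 2 * Real.pi / 3 = Real.pi - Real.pi / 3 by ring, Real.cos_pi_sub, Real.cos_pi_div_three]
      ring
    have h2 : Real.sin (2 * Real.pi / 3) = Real.sqrt 3 / 2 := by
      rw [show 2 * Real.pi / 3 = Real.pi - Real.pi / 3 by ring, Real.sin_pi_sub, Real.sin_pi_div_three]
    rw [h1, h2]
    push_cast
    ring
  have e2 : Complex.exp ((-(2 * Real.pi / 3) : ℝ) * Complex.I) = -1 / 2 - (Real.sqrt 3 / 2 : ℝ) * Complex.I := by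
    rw [Complex.exp_mul_I, ← Complex.ofReal_cos, ← Complex.ofReal_sin]
    have h1 : Real.cos (-(2 * Real.pi / 3)) = -1 / 2 := by
      rw [Real.cos_neg, show 2 * Real.pi / 3 = Real.pi - Real.pi / 3 by ring, Real.cos_pi_sub,
        Real.cos_pi_div_three]
      ring
    have h2 : Real.sin (-(2 * Real.pi / 3)) = -(Real.sqrt 3 / 2) := by
      rw [Real.sin_neg, show 2 * Real.pi / 3 = Real.pi - Real.pi / 3 by ring, Real.sin_pi_sub,
        Real.sin_pi_div_three]
    rw [h1, h2]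
    push_cast
    ring
  simp only [if_true, one_ne_zero, if_false, OfNat.ofNat_ne_zero, show ¬ ((1 : ℕ) = 2) by norm_num,
    show ¬ ((1 : ℕ) = 3) by norm_num, show ¬ ((3 : ℕ) = 2) by norm_num]
  rw [e1, e2, Complex.exp_pi_mul_I]
  push_cast
  simp
  ring

end dampsec

/-! ### Data over the rationals -/

/-- a factorisation of the atoms with norm bounds -/
structure Dat (B : ℝ) (t : ℕ → ℚ) (g h : ℚ → ℂ) : Prop where
  tpos : ∀ i, 0 < t i
  tanti : StrictAnti t
  g0 : ∀ q ≤ 0, g q = 0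
  h0 : ∀ q ≤ 0, h q = 0
  gsum : Summable fun x => ‖g x‖
  hsum : Summable fun x => ‖h x‖
  gB : ∑' x, ‖g x‖ ≤ B
  hB : ∑' x, ‖h x‖ ≤ B
  prod : conv g h = atoms t

theorem Dat.symm {B : ℝ} {t : ℕ → ℚ} {g h : ℚ → ℂ} (D : Dat B t g h) : Dat B t h g :=
  ⟨D.tpos, D.tanti, D.h0, D.g0, D.hsum, D.gsum, D.hB, D.gB, by rw [conv_comm, D.prod]⟩

theorem Exact.symm {K : Type*} [Field K] [LinearOrder K] [IsStrictOrderedRing K] {m : ℕ}
    {t : ℕ → K} {g h : K → ℂ} {B : ℝ} (E : Exact m t g h B) : Exact m t h g B :=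
  ⟨E.tpos, E.tanti, E.tsep, E.h0, E.g0, E.hsum, E.gsum, E.hB, E.gB, by rw [conv_comm, E.prod]⟩

/-- separation from level `k` on -/
def Sep (k R : ℕ) (t : ℕ → ℚ) : Prop := ∀ i, 6 * k ≤ i + 1 → (R : ℚ) * t (i + 1) ≤ t i

/-- the limiting data -/
theorem limit_exact {B : ℝ} {k : ℕ} {t : ℕ → ℕ → ℚ} {g h : ℕ → ℚ → ℂ}
    (hD : ∀ j, Dat B (t j) (g j) (h j)) (hS : ∀ j, Sep k j (t j)) :
    Exact k (fun i => ((fun j => t j i : ℕ → ℚ) : HQ)) (Lim g) (Lim h) B := by
  have bg : Bdd g B := ⟨fun j => (hD j).gsum, fun j => (hD j).gB⟩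
  have bh : Bdd h B := ⟨fun j => (hD j).hsum, fun j => (hD j).hB⟩
  have zero_of : ∀ {u : ℕ → ℚ → ℂ}, Bdd u B → (∀ j, ∀ q ≤ 0, u j q = 0) → ∀ x < 0, Lim u x = 0 := by
    intro u bu hu x hx
    have h1 : ∀ᶠ j in (hyperfilter ℕ : Filter ℕ), rep x j < 0 := by
      have h : ((rep x : ℕ → ℚ) : HQ) < ((fun _ => 0 : ℕ → ℚ) : HQ) := by
        rw [rep_spec]
        exact hx
      exact germ_lt.1 h
    refine tendsto_nhds_unique (Lim_tendsto_rep bu x) ?_
    exact tendsto_const_nhds.congr' (h1.mono fun j hj => (hu j _ hj.le).symm)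
  refine ⟨fun i => ?_, ?_, fun i hi n => ?_, zero_of bg fun j => (hD j).g0,
    zero_of bh fun j => (hD j).h0, (Lim_summable bg).1, (Lim_summable bh).1, (Lim_summable bg).2,
    (Lim_summable bh).2, ?_⟩
  · have h : ((fun _ => 0 : ℕ → ℚ) : HQ) < ((fun j => t j i : ℕ → ℚ) : HQ) :=
      germ_lt.2 (Eventually.of_forall fun j => (hD j).tpos i)
    exact h
  · intro a b hab
    exact germ_lt.2 (Eventually.of_forall fun j => (hD j).tanti hab)
  · have h1 : ((n : ℕ) : HQ) * ((fun j => t j (i + 1) : ℕ → ℚ) : HQ) =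
        ((fun j => (n : ℚ) * t j (i + 1) : ℕ → ℚ) : HQ) := by
      have h2 : ((n : ℕ) : HQ) = (((n : ℚ) : ℚ) : HQ) := by simp
      rw [h2, germ_ratCast]
      rfl
    rw [h1]
    refine germ_lt.2 ?_
    have h3 : ∀ᶠ j in (hyperfilter ℕ : Filter ℕ), n + 1 ≤ j := by
      have h4 : ∀ᶠ j in (atTop : Filter ℕ), n + 1 ≤ j := eventually_ge_atTop (n + 1)
      rw [← Nat.cofinite_eq_atTop] at h4
      exact (hyperfilter_le_cofinite : (hyperfilter ℕ : Filter ℕ) ≤ cofinite) h4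
    refine h3.mono fun j hj => ?_
    have h5 := hS j i hi
    have h6 := (hD j).tpos (i + 1)
    have h7 : ((n : ℚ) + 1) ≤ j := by exact_mod_cast hj
    nlinarith
  · rw [← Lim_conv bg bh]
    have h1 : (fun j => conv (g j) (h j)) = fun j => atoms (t j) := funext fun j => (hD j).prod
    rw [h1, Lim_atoms fun j => (hD j).tanti]

theorem norm_rd_le {p : ℚ} (hp : 0 < p) {h : ℚ → ℂ} (h0 : ∀ q ≤ 0, h q = 0) (q : ℚ) :
    ‖rd p h q‖ ≤ ‖h q‖ := by
  unfold rd
  rcases le_or_gt q 0 with hq | hq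
  · simp [h0 q hq]
  · rw [norm_mul]
    refine mul_le_of_le_one_right (norm_nonneg _) ?_
    rw [Complex.norm_real, Real.norm_eq_abs, abs_of_pos (Real.exp_pos _), Real.exp_le_one_iff,
      Left.neg_nonpos_iff]
    exact_mod_cast (div_pos hq hp).le

theorem summable_rd {p : ℚ} (hp : 0 < p) {h : ℚ → ℂ} (h0 : ∀ q ≤ 0, h q = 0)
    (hs : Summable fun x => ‖h x‖) : Summable fun x => ‖rd p h x‖ :=
  Summable.of_nonneg_of_le (fun _ => norm_nonneg _) (norm_rd_le hp h0) hs

theorem Bdd.rd {u : ℕ → ℚ → ℂ} {B : ℝ} (hu : Bdd u B) (h0 : ∀ j, ∀ q ≤ 0, u j q = 0)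
    {p : ℕ → ℚ} (hp : ∀ j, 0 < p j) : Bdd (fun j => rd (p j) (u j)) B where
  sum j := summable_rd (hp j) (h0 j) (hu.sum j)
  le j := ((summable_rd (hp j) (h0 j) (hu.sum j)).tsum_le_tsum (norm_rd_le (hp j) (h0 j))
    (hu.sum j)).trans (hu.le j)

theorem tendsto_integral_rd {u : ℕ → ℚ → ℂ} {B : ℝ} (hu : Bdd u B)
    (h0 : ∀ j, ∀ q ≤ 0, u j q = 0) {p : ℕ → ℚ} (hp : ∀ j, 0 < p j) {Φ : ℂ → ℝ}
    (hΦ : Continuous Φ) :
    Tendsto (fun j => ∫ χ, Φ (ft (rd (p j) (u j)) χ) ∂(mu ℚ)) (hyperfilter ℕ : Filter ℕ)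
      (𝓝 (∫ ω, Φ (ft (damp (p : HQ) 1 (Lim u)) ω) ∂(mu HQ))) := by
  have h := Lim_integral (hu.rd h0 hp) hΦ
  rwa [Lim_damp hu (fun j q hq => h0 j q hq.le) hp] at h

/-- the lower bound at level `k` -/
noncomputable def kap (B : ℝ) (k : ℕ) : ℝ := cf (6 * k) / (2 * B)

theorem kap_pos {B : ℝ} (hB : 0 < B) (k : ℕ) : 0 < kap B k := by
  unfold kap
  rw [cf_six_mul]
  positivity

theorem kap_succ_le {B : ℝ} (hB : 0 < B) (k : ℕ) : kap B (k + 1) ≤ kap B k := by
  unfold kap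
  rw [cf_six_mul, cf_six_mul]
  refine div_le_div_of_nonneg_right ?_ (by positivity)
  refine div_le_div_of_nonneg_left (by norm_num) (by positivity) ?_
  exact pow_le_pow_right₀ (by norm_num) (Nat.le_succ k)

/-- first test integral -/
noncomputable def J1 (κ : ℝ) (z : ℂ) : ℝ := max 0 (κ - ‖z‖)

/-- second test integral -/
noncomputable def J2 (κ : ℝ) (z : ℂ) : ℝ := max 0 (κ - ‖z‖ / κ)

/-- third test integral -/
noncomputable def J3 (κ : ℝ) (z : ℂ) : ℝ := (max ‖z‖ κ)⁻¹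

theorem continuous_J1 (κ : ℝ) : Continuous (J1 κ) := by unfold J1; fun_prop
theorem continuous_J2 (κ : ℝ) : Continuous (J2 κ) := by unfold J2; fun_prop
theorem continuous_J3 {κ : ℝ} (hκ : 0 < κ) : Continuous (J3 κ) := by
  unfold J3
  exact (continuous_norm.max continuous_const).inv₀ fun z => (lt_max_of_lt_right hκ).ne'

/-- the colour condition -/
def QQ (B : ℝ) (k : ℕ) (t : ℕ → ℚ) (h : ℚ → ℂ) : Prop :=
  ∫ χ, J1 (kap B k) (ft (rd (t (6 * k + 1)) h) χ) ∂(mu ℚ) <
    (1 / 2) * ∫ χ, J2 (kap B k) (ft (rd (t (6 * k + 1)) (atoms t)) χ) ∂(mu ℚ)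

/-- the mean of the reciprocal, truncated -/
noncomputable def II (B : ℝ) (k : ℕ) (t : ℕ → ℚ) (h : ℚ → ℂ) : ℝ :=
  ∫ χ, J3 (kap B k) (ft (rd (t (6 * k + 1)) h) χ) ∂(mu ℚ)

theorem bdd_atoms {B : ℝ} {t : ℕ → ℕ → ℚ} {g h : ℕ → ℚ → ℂ} (hD : ∀ j, Dat B (t j) (g j) (h j)) :
    Bdd (fun j => atoms (t j)) 10 :=
  ⟨fun j => summable_atoms (hD j).tanti.injective, fun j => (tsum_atoms (hD j).tanti.injective).le⟩

theorem bdd_h {B : ℝ} {t : ℕ → ℕ → ℚ} {g h : ℕ → ℚ → ℂ} (hD : ∀ j, Dat B (t j) (g j) (h j)) :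
    Bdd h B := ⟨fun j => (hD j).hsum, fun j => (hD j).hB⟩

section lim

variable {B : ℝ} {t : ℕ → ℕ → ℚ} {g h : ℕ → ℚ → ℂ}

theorem tendsto_J_h (hD : ∀ j, Dat B (t j) (g j) (h j)) (i : ℕ) {Φ : ℂ → ℝ} (hΦ : Continuous Φ) :
    Tendsto (fun j => ∫ χ, Φ (ft (rd (t j i) (h j)) χ) ∂(mu ℚ)) (hyperfilter ℕ : Filter ℕ)
      (𝓝 (∫ ω, Φ (ft (damp ((fun j => t j i : ℕ → ℚ) : HQ) 1 (Lim h)) ω) ∂(mu HQ))) :=
  tendsto_integral_rd (bdd_h hD) (fun j => (hD j).h0) (fun j => (hD j).tpos i) hΦ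

theorem tendsto_J_f (hD : ∀ j, Dat B (t j) (g j) (h j)) (i : ℕ) {Φ : ℂ → ℝ} (hΦ : Continuous Φ) :
    Tendsto (fun j => ∫ χ, Φ (ft (rd (t j i) (atoms (t j))) χ) ∂(mu ℚ))
      (hyperfilter ℕ : Filter ℕ)
      (𝓝 (∫ ω, Φ (ft (damp ((fun j => t j i : ℕ → ℚ) : HQ) 1
        (atoms (fun i => ((fun j => t j i : ℕ → ℚ) : HQ)))) ω) ∂(mu HQ))) := by
  have h := tendsto_integral_rd (bdd_atoms hD) (fun j q hq => atoms_zero_of_lt (hD j).tpos hq)
    (fun j => (hD j).tpos i) hΦ
  rwa [Lim_atoms fun j => (hD j).tanti] at h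

end lim

theorem J2_pos {B : ℝ} (hB : 0 < B) {k : ℕ} {T : ℕ → HQ} {G H : HQ → ℂ} (E : Exact k T G H B) :
    0 < ∫ ω, J2 (kap B k) (ft (damp (T (6 * k + 1)) 1 (atoms T)) ω) ∂(mu HQ) := by
  obtain ⟨ω₀, hω₀⟩ := exists_zero E.tpos E.tanti E.tsep
  have hs : Summable fun x => ‖damp (T (6 * k + 1)) 1 (atoms T) x‖ := by
    refine summable_damp (E.tpos _) (fun x hx => ?_) (summable_atoms E.tanti.injective)
    exact atoms_of_not fun ⟨i, hi⟩ => absurd (E.tpos i) (by rw [hi]; exact not_lt.2 hx.le)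
  have hc : Continuous fun ω => J2 (kap B k) (ft (damp (T (6 * k + 1)) 1 (atoms T)) ω) :=
    (continuous_J2 _).comp (continuous_ft hs)
  refine hc.integral_pos_of_hasCompactSupport_nonneg_nonzero (HasCompactSupport.of_compactSpace _)
    (fun ω => le_max_left _ _) (x := ω₀) ?_
  rw [hω₀]
  unfold J2
  rw [norm_zero, zero_div, sub_zero, max_eq_right (kap_pos hB k).le]
  exact (kap_pos hB k).ne'

theorem J1_int_zero {κ : ℝ} {F : DualG HQ → ℂ} (h : ∀ ω, κ ≤ ‖F ω‖) :
    ∫ ω, J1 κ (F ω) ∂(mu HQ) = 0 := by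
  have : (fun ω => J1 κ (F ω)) = fun _ => 0 := by
    funext ω
    unfold J1
    exact max_eq_left (by linarith [h ω])
  rw [this, integral_zero]

/-- statement of the dichotomy -/
def DichStmt : Prop := ∀ {m : ℕ} {t : ℕ → HQ} {g h : HQ → ℂ} {B : ℝ}, Exact m t g h B →
    (∀ ω, cf (6 * m) / (2 * B) ≤ ‖ft (damp (t (6 * m + 1)) 1 h) ω‖) ∨
    (∀ ω, cf (6 * m) / (2 * B) ≤ ‖ft (damp (t (6 * m + 1)) 1 g) ω‖)

/-- statement of the descent -/
def DescStmt : Prop := ∀ {m : ℕ} {t : ℕ → HQ} {g h : HQ → ℂ} {B κ : ℝ}, Exact m t g h B →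
    0 < κ → (∀ ω, κ ≤ ‖ft (damp (t (6 * m + 1)) 1 h) ω‖) →
    (∀ ω, κ ≤ ‖ft (damp (t (6 * (m + 1) + 1)) 1 h) ω‖) ∧
    NN (ft (damp (t (6 * (m + 1) + 1)) 1 h)) ≤ NN (ft (damp (t (6 * m + 1)) 1 h))

theorem key_dich (hDi : DichStmt) {B : ℝ} (hB : 0 < B) (k : ℕ) :
    ∃ R : ℕ, ∀ t g h, Dat B t g h → Sep k R t → QQ B k t g ∨ QQ B k t h := by
  by_contra hcon
  push Not at hcon
  choose t g h hD hS hg hh using hcon
  have E := limit_exact hD hS
  have aux : ∀ {g h : ℕ → ℚ → ℂ}, (∀ j, Dat B (t j) (g j) (h j)) →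
      Exact k (fun i => ((fun j => t j i : ℕ → ℚ) : HQ)) (Lim g) (Lim h) B →
      (∀ j, ¬ QQ B k (t j) (h j)) →
      (∀ ω, kap B k ≤ ‖ft (damp ((fun j => t j (6 * k + 1) : ℕ → ℚ) : HQ) 1 (Lim h)) ω‖) → False := by
    intro g h hD E hh hlow
    have h1 := tendsto_J_h hD (6 * k + 1) (continuous_J1 (kap B k))
    have h2 := tendsto_J_f hD (6 * k + 1) (continuous_J2 (kap B k))
    rw [J1_int_zero hlow] at h1
    have h3 := le_of_tendsto_of_tendsto' (h2.const_mul (1 / 2)) h1 (fun j => not_lt.1 (hh j))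
    have h4 := J2_pos hB E
    linarith
  rcases hDi E with h1 | h1
  · exact aux hD E hh h1
  · exact aux (fun j => (hD j).symm) E.symm hg h1

/-- if the colour condition holds along the sequence then the limit is bounded below -/
theorem colour_limit (hDi : DichStmt) {B : ℝ} (hB : 0 < B) {k : ℕ} {t : ℕ → ℕ → ℚ}
    {g h : ℕ → ℚ → ℂ} (hD : ∀ j, Dat B (t j) (g j) (h j)) (hS : ∀ j, Sep k j (t j))
    (hQ : ∀ j, QQ B k (t j) (h j)) :
    ∀ ω, kap B k ≤ ‖ft (damp ((fun j => t j (6 * k + 1) : ℕ → ℚ) : HQ) 1 (Lim h)) ω‖ := by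
  have E := limit_exact hD hS
  rcases hDi E with h1 | h1
  · exact h1
  · exfalso
    have hκ := kap_pos hB k
    have h2 := tendsto_J_h hD (6 * k + 1) (continuous_J1 (kap B k))
    have h3 := tendsto_J_f hD (6 * k + 1) (continuous_J2 (kap B k))
    have h4 := le_of_tendsto_of_tendsto' h2 (h3.const_mul (1 / 2)) (fun j => (hQ j).le)
    have h5 := J2_pos hB E
    have hsf : Summable fun x => ‖damp ((fun j => t j (6 * k + 1) : ℕ → ℚ) : HQ) 1
        (atoms (fun i => ((fun j => t j i : ℕ → ℚ) : HQ))) x‖ := by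
      refine summable_damp (E.tpos _) (fun x hx => ?_) (summable_atoms E.tanti.injective)
      exact atoms_of_not fun ⟨i, hi⟩ => absurd (E.tpos i) (by rw [hi]; exact not_lt.2 hx.le)
    have hsh : Summable fun x => ‖damp ((fun j => t j (6 * k + 1) : ℕ → ℚ) : HQ) 1 (Lim h) x‖ :=
      summable_damp (E.tpos _) E.h0 E.hsum
    have h6 : ∫ ω, J2 (kap B k) (ft (damp ((fun j => t j (6 * k + 1) : ℕ → ℚ) : HQ) 1
          (atoms (fun i => ((fun j => t j i : ℕ → ℚ) : HQ)))) ω) ∂(mu HQ) ≤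
        ∫ ω, J1 (kap B k) (ft (damp ((fun j => t j (6 * k + 1) : ℕ → ℚ) : HQ) 1 (Lim h)) ω) ∂(mu HQ) := by
      refine integral_mono (integrable_cont ((continuous_J2 _).comp (continuous_ft hsf)))
        (integrable_cont ((continuous_J1 _).comp (continuous_ft hsh))) (fun ω => ?_)
      unfold J1 J2
      refine max_le_max le_rfl (sub_le_sub_left ?_ _)
      have h7 := ft_damp_conv (E.tpos (6 * k + 1)) E.g0 E.h0 E.gsum E.hsum ω
      rw [E.prod] at h7
      rw [h7, norm_mul, le_div_iff₀ hκ, mul_comm]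
      exact mul_le_mul_of_nonneg_right (h1 ω) (norm_nonneg _)
    linarith

theorem key_step (hDi : DichStmt) (hDe : DescStmt) {B : ℝ} (hB : 0 < B) (k : ℕ) :
    ∃ R : ℕ, ∀ t g h, Dat B t g h → Sep k R t → QQ B k t h →
      QQ B (k + 1) t h ∧ II B (k + 1) t h ≤ II B k t h + (1 / 2) ^ k := by
  by_contra hcon
  push Not at hcon
  choose t g h hD hS hQ hfail using hcon
  have E := limit_exact hD hS
  have hlow := colour_limit hDi hB hD hS hQ
  have hκ := kap_pos hB k
  obtain ⟨hlow', hNN⟩ := hDe E hκ hlow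
  have E' : Exact (k + 1) (fun i => ((fun j => t j i : ℕ → ℚ) : HQ)) (Lim g) (Lim h) B :=
    { E with tsep := fun i hi n => E.tsep i (by omega) n }
  have hlow1 : ∀ ω, kap B (k + 1) ≤
      ‖ft (damp ((fun j => t j (6 * (k + 1) + 1) : ℕ → ℚ) : HQ) 1 (Lim h)) ω‖ := fun ω =>
    (kap_succ_le hB k).trans (hlow' ω)
  -- the failure alternatives
  have hQ' : ∀ᶠ j in (hyperfilter ℕ : Filter ℕ), QQ B (k + 1) (t j) (h j) := by
    have h1 := tendsto_J_h hD (6 * (k + 1) + 1) (continuous_J1 (kap B (k + 1)))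
    have h2 := tendsto_J_f hD (6 * (k + 1) + 1) (continuous_J2 (kap B (k + 1)))
    rw [J1_int_zero hlow1] at h1
    have h4 := J2_pos hB E'
    have h5 := h1.eventually_lt (h2.const_mul (1 / 2)) (by linarith)
    exact h5
  have hII : ∀ᶠ j in (hyperfilter ℕ : Filter ℕ), II B k (t j) (h j) + (1 / 2) ^ k <
      II B (k + 1) (t j) (h j) := hQ'.mono fun j hj => hfail j hj
  have i1 := tendsto_J_h hD (6 * k + 1) (continuous_J3 hκ)
  have i2 := tendsto_J_h hD (6 * (k + 1) + 1) (continuous_J3 (kap_pos hB (k + 1)))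
  have h6 := le_of_tendsto_of_tendsto (i1.add_const ((1 / 2 : ℝ) ^ k)) i2
    (hII.mono fun j hj => hj.le)
  have e1 : ∀ {κ : ℝ} {F : DualG HQ → ℂ}, (∀ ω, κ ≤ ‖F ω‖) → ∫ ω, J3 κ (F ω) ∂(mu HQ) = NN F := by
    intro κ F hF
    unfold NN J3
    congr 1
    funext ω
    rw [max_eq_left (hF ω)]
  rw [e1 hlow, e1 hlow1] at h6
  have h7 : (0 : ℝ) < (1 / 2) ^ k := by positivity
  linarith

/-! ### The final contradiction -/

/-- the masses of the damped functions tend to zero -/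
theorem rd_norm_tendsto {h : ℚ → ℂ} (h0 : ∀ q ≤ 0, h q = 0) (hs : Summable fun x => ‖h x‖)
    {p : ℕ → ℚ} (hp : ∀ j, 0 < p j) (hp0 : Tendsto (fun j => (p j : ℝ)) atTop (𝓝 0)) :
    Tendsto (fun j => ∑' x, ‖rd (p j) h x‖) atTop (𝓝 0) := by
  have h1 : Tendsto (fun j => ∑' x, ‖rd (p j) h x‖) atTop (𝓝 (∑' x : ℚ, (0 : ℝ))) := by
    refine tendsto_tsum_of_dominated_convergence (bound := fun x => ‖h x‖) hs (fun q => ?_)
      (Eventually.of_forall fun j q => ?_)
    · rcases le_or_gt q 0 with hq | hq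
      · have : (fun j => ‖rd (p j) h q‖) = fun _ => 0 := by
          funext j
          simp [rd, h0 q hq]
        rw [this]
        exact tendsto_const_nhds
      · have h2 : Tendsto (fun j => (q : ℝ) / (p j : ℝ)) atTop atTop := by
          have h3 : Tendsto (fun j => ((p j : ℝ))⁻¹) atTop atTop := by
            refine tendsto_inv_nhdsGT_zero.comp (tendsto_nhdsWithin_iff.2 ⟨hp0, ?_⟩)
            exact Eventually.of_forall fun j => by
              simpa using hp j
          have hq' : (0 : ℝ) < q := by exact_mod_cast hq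
          exact h3.const_mul_atTop hq'
        have h4 := (Real.tendsto_exp_neg_atTop_nhds_zero.comp h2).const_mul ‖h q‖
        rw [mul_zero] at h4
        refine h4.congr fun j => ?_
        unfold rd
        rw [norm_mul, Complex.norm_real, Real.norm_eq_abs, abs_of_pos (Real.exp_pos _)]
        push_cast
        rfl
    · rw [norm_norm]
      exact norm_rd_le (hp j) h0 q
  simpa using h1

theorem II_lower {B : ℝ} (hB : 0 < B) {k : ℕ} {t : ℕ → ℚ} {g h : ℚ → ℂ} (D : Dat B t g h) :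
    (max (∑' x, ‖rd (t (6 * k + 1)) h x‖) (kap B k))⁻¹ ≤ II B k t h := by
  have hs := summable_rd (D.tpos (6 * k + 1)) D.h0 D.hsum
  have h1 : ∀ χ, (max (∑' x, ‖rd (t (6 * k + 1)) h x‖) (kap B k))⁻¹ ≤
      J3 (kap B k) (ft (rd (t (6 * k + 1)) h) χ) := by
    intro χ
    unfold J3
    refine inv_anti₀ (lt_max_of_lt_right (kap_pos hB k)) ?_
    exact max_le_max (norm_ft_le hs χ) le_rfl
  have h2 : ∫ _χ : DualG ℚ, (max (∑' x, ‖rd (t (6 * k + 1)) h x‖) (kap B k))⁻¹ ∂(mu ℚ) =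
      (max (∑' x, ‖rd (t (6 * k + 1)) h x‖) (kap B k))⁻¹ := by simp
  rw [← h2]
  exact integral_mono (integrable_const _)
    (integrable_cont ((continuous_J3 (kap_pos hB k)).comp (continuous_ft hs))) h1

/-- no factorisation with bound `B` for a suitable `t` -/
theorem exists_bad (hDi : DichStmt) (hDe : DescStmt) {B : ℝ} (hB : 0 < B) :
    ∃ t : ℕ → ℚ, (∀ i, 0 < t i) ∧ StrictAnti t ∧ ∀ g h, ¬ Dat B t g h := by
  choose R1 hR1 using key_dich hDi hB
  choose R2 hR2 using key_step hDi hDe hB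
  -- the ratios
  set S : ℕ → ℕ := fun i => 2 + ∑ k ∈ Finset.range (i + 2), (R1 k + R2 k) with hSdef
  have hS2 : ∀ i, 2 ≤ S i := fun i => Nat.le_add_right _ _
  have hSk : ∀ k i, 6 * k ≤ i + 1 → R1 k ≤ S i ∧ R2 k ≤ S i := by
    intro k i hk
    have hmem : k ∈ Finset.range (i + 2) := Finset.mem_range.2 (by omega)
    have := Finset.single_le_sum (f := fun k => R1 k + R2 k) (fun _ _ => Nat.zero_le _) hmem
    constructor <;> simp only [hSdef] <;> omega
  set t : ℕ → ℚ := fun i => ∏ j ∈ Finset.range i, ((S j : ℚ))⁻¹ with htdef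
  have hSpos : ∀ i, (0 : ℚ) < S i := fun i => by
    have := hS2 i
    exact_mod_cast (by omega : 0 < S i)
  have tpos : ∀ i, 0 < t i := fun i => Finset.prod_pos fun j _ => inv_pos.2 (hSpos j)
  have tsucc : ∀ i, t (i + 1) = t i * ((S i : ℚ))⁻¹ := fun i => Finset.prod_range_succ _ _
  have tsucc' : ∀ i, (S i : ℚ) * t (i + 1) = t i := fun i => by
    rw [tsucc, mul_comm, mul_assoc, inv_mul_cancel₀ (hSpos i).ne', mul_one]
  have thalf : ∀ i, 2 * t (i + 1) ≤ t i := fun i => by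
    rw [← tsucc' i]
    refine mul_le_mul_of_nonneg_right ?_ (tpos _).le
    exact_mod_cast hS2 i
  have tanti : StrictAnti t := by
    refine strictAnti_nat_of_succ_lt fun i => ?_
    have := thalf i
    have := tpos (i + 1)
    linarith
  have hsep : ∀ k, Sep k (R1 k) t ∧ Sep k (R2 k) t := by
    intro k
    constructor
    · intro i hi
      rw [← tsucc' i]
      refine mul_le_mul_of_nonneg_right ?_ (tpos _).le
      exact_mod_cast (hSk k i hi).1
    · intro i hi
      rw [← tsucc' i]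
      refine mul_le_mul_of_nonneg_right ?_ (tpos _).le
      exact_mod_cast (hSk k i hi).2
  refine ⟨t, tpos, tanti, ?_⟩
  -- the contradiction, for a factor of the right colour
  have main : ∀ g h, Dat B t g h → QQ B 0 t h → False := by
    intro g h D hQ
    have hall : ∀ k, QQ B k t h ∧ II B k t h ≤ II B 0 t h + (2 - 2 * (1 / 2) ^ k) := by
      intro k
      induction k with
      | zero => exact ⟨hQ, by norm_num⟩
      | succ k ih =>
        obtain ⟨h1, h2⟩ := hR2 k t g h D (hsep k).2 ih.1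
        refine ⟨h1, ?_⟩
        have h3 : (1 / 2 : ℝ) ^ (k + 1) = (1 / 2) ^ k * (1 / 2) := pow_succ _ _
        rw [h3]
        linarith [ih.2]
    have hbd : ∀ k, II B k t h ≤ II B 0 t h + 2 := fun k => by
      have h1 : (0 : ℝ) < (1 / 2) ^ k := by positivity
      linarith [(hall k).2]
    -- `t (6 k + 1)` tends to zero
    have tbd : ∀ i, t i ≤ (1 / 2) ^ i := by
      intro i
      induction i with
      | zero => simp [htdef]
      | succ i ih =>
        have := thalf i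
        rw [pow_succ]
        linarith
    have hp0 : Tendsto (fun k => (t (6 * k + 1) : ℝ)) atTop (𝓝 0) := by
      have h1 : Tendsto (fun i : ℕ => ((1 / 2 : ℝ)) ^ i) atTop (𝓝 0) :=
        tendsto_pow_atTop_nhds_zero_of_lt_one (by norm_num) (by norm_num)
      have h2 : Tendsto (fun k : ℕ => 6 * k + 1) atTop atTop :=
        tendsto_atTop_mono (fun k => by simp only [id]; omega) tendsto_id
      refine squeeze_zero (fun k => by exact_mod_cast (tpos _).le) (fun k => ?_) (h1.comp h2)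
      simp only [Function.comp_apply]
      have h3 := tbd (6 * k + 1)
      have h4 : ((t (6 * k + 1) : ℚ) : ℝ) ≤ (((1 / 2 : ℚ) ^ (6 * k + 1) : ℚ) : ℝ) := by
        exact_mod_cast h3
      simpa using h4
    have hn := rd_norm_tendsto D.h0 D.hsum (fun k => tpos (6 * k + 1)) hp0
    have hk0 : Tendsto (fun k => kap B k) atTop (𝓝 0) := by
      have h1 : Tendsto (fun k : ℕ => (5 / (2 * B)) * ((1 / 10 : ℝ)) ^ k) atTop (𝓝 ((5 / (2 * B)) * 0)) :=
        (tendsto_pow_atTop_nhds_zero_of_lt_one (by norm_num) (by norm_num)).const_mul _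
      rw [mul_zero] at h1
      refine h1.congr fun k => ?_
      unfold kap
      rw [cf_six_mul, one_div, inv_pow]
      field_simp
    have hm := hn.max hk0
    rw [max_self] at hm
    have hpos0 : 0 ≤ II B 0 t h := by
      unfold II J3
      exact integral_nonneg fun χ => inv_nonneg.2 (le_max_of_le_left (norm_nonneg _))
    have hpos : (0 : ℝ) < (II B 0 t h + 3)⁻¹ := by positivity
    obtain ⟨k, hk⟩ := (hm.eventually_lt_const hpos).exists
    have h1 := II_lower hB (k := k) D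
    have h2 : 0 < max (∑' x, ‖rd (t (6 * k + 1)) h x‖) (kap B k) := lt_max_of_lt_right (kap_pos hB k)
    have h3 : II B 0 t h + 3 < (max (∑' x, ‖rd (t (6 * k + 1)) h x‖) (kap B k))⁻¹ := by
      rw [lt_inv_comm₀ (by positivity) h2]
      exact hk
    linarith [hbd k]
  intro g h D
  rcases hR1 0 t g h D (hsep 0).1 with h1 | h1
  · exact main h g D.symm h1
  · exact main g h D h1

theorem final_of (hDi : DichStmt) (hDe : DescStmt) :
    ¬ (∃ M : ℝ, 1 ≤ M ∧
      ∀ a : ℚ → ℂ, (∀ q : ℚ, q ≤ 0 → a q = 0) → Summable (fun q : ℚ => ‖a q‖) →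
        ∃ b c : ℚ → ℂ,
          (∀ q : ℚ, q ≤ 0 → b q = 0) ∧ (∀ q : ℚ, q ≤ 0 → c q = 0) ∧
          Summable (fun q : ℚ => ‖b q‖) ∧ Summable (fun q : ℚ => ‖c q‖) ∧
          (∀ q : ℚ, a q = ∑' r : ℚ, b r * c (q - r)) ∧
          (∑' q : ℚ, ‖b q‖) * (∑' q : ℚ, ‖c q‖) ≤ M * ∑' q : ℚ, ‖a q‖) := by
  rintro ⟨M, hM1, hM⟩
  have hB : 0 < Real.sqrt (10 * M) := Real.sqrt_pos.2 (by linarith)
  obtain ⟨t, tpos, tanti, hbad⟩ := exists_bad hDi hDe hB
  obtain ⟨b, c, b0, c0, bs, cs, hprod, hle⟩ := hM (atoms t)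
    (fun q hq => atoms_zero_of_lt tpos hq) (summable_atoms tanti.injective)
  rw [tsum_atoms tanti.injective] at hle
  set nb : ℝ := ∑' q : ℚ, ‖b q‖ with hnb
  set nc : ℝ := ∑' q : ℚ, ‖c q‖ with hnc
  have hconv : conv b c = atoms t := funext fun q => (hprod q).symm
  have hne : atoms t (t 0) ≠ 0 := by
    rw [atoms_apply tanti.injective, cf_0]
    norm_num
  have hnb0 : 0 < nb := by
    rcases (tsum_nonneg (fun q : ℚ => norm_nonneg (b q))).lt_or_eq with h | h
    · exact h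
    · exfalso
      refine hne ?_
      rw [hprod]
      have hb : ∀ q, b q = 0 := fun q => by
        have h1 := bs.le_tsum q (fun _ _ => norm_nonneg _)
        rw [← h] at h1
        exact norm_le_zero_iff.1 h1
      simp [hb]
  have hnc0 : 0 < nc := by
    rcases (tsum_nonneg (fun q : ℚ => norm_nonneg (c q))).lt_or_eq with h | h
    · exact h
    · exfalso
      refine hne ?_
      rw [hprod]
      have hb : ∀ q, c q = 0 := fun q => by
        have h1 := cs.le_tsum q (fun _ _ => norm_nonneg _)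
        rw [← h] at h1
        exact norm_le_zero_iff.1 h1
      simp [hb]
  set s : ℝ := Real.sqrt (nc / nb) with hs
  have hs0 : 0 < s := Real.sqrt_pos.2 (by positivity)
  have hs2 : s * s = nc / nb := Real.mul_self_sqrt (by positivity)
  have e1 : s * nb ≤ Real.sqrt (10 * M) := by
    refine Real.le_sqrt_of_sq_le ?_
    have : (s * nb) ^ 2 = nb * nc := by
      rw [mul_pow, sq, hs2]
      field_simp
    rw [this]
    linarith
  have e2 : s⁻¹ * nc ≤ Real.sqrt (10 * M) := by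
    refine Real.le_sqrt_of_sq_le ?_
    have : (s⁻¹ * nc) ^ 2 = nb * nc := by
      rw [mul_pow, inv_pow, sq s, hs2]
      field_simp
    rw [this]
    linarith
  refine hbad (fun q => (s : ℂ) * b q) (fun q => ((s⁻¹ : ℝ) : ℂ) * c q)
    ⟨tpos, tanti, fun q hq => by simp [b0 q hq], fun q hq => by simp [c0 q hq], ?_, ?_, ?_, ?_, ?_⟩
  · simp_rw [norm_mul]
    exact bs.mul_left _
  · simp_rw [norm_mul]
    exact cs.mul_left _
  · simp_rw [norm_mul]
    rw [tsum_mul_left, Complex.norm_real, Real.norm_eq_abs, abs_of_pos hs0]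
    exact e1
  · simp_rw [norm_mul]
    rw [tsum_mul_left, Complex.norm_real, Real.norm_eq_abs, abs_of_pos (inv_pos.2 hs0)]
    exact e2
  · rw [← hconv]
    funext x
    unfold conv
    refine tsum_congr fun r => ?_
    have : (s : ℂ) * ((s⁻¹ : ℝ) : ℂ) = 1 := by
      rw [← Complex.ofReal_mul, mul_inv_cancel₀ hs0.ne', Complex.ofReal_one]
    linear_combination (b r * c (x - r)) * this

end Pool.Agent.H92
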