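import Pool.Agent.H92.Scale

set_option autoImplicit false

open MeasureTheory Filter Topology

namespace Pool.Agent.H92

/-! Part C (limits) -/
section C

/-- the ultrapower of the rationals -/
abbrev HQ : Type := (hyperfilter ℕ : Filter ℕ).Germ ℚ

/-- a representing sequence -/
noncomputable def rep (ξ : HQ) : ℕ → ℚ := (Quotient.exists_rep ξ).choose

/-- the limit function -/
noncomputable def Lim (u : ℕ → ℚ → ℂ) (ξ : HQ) : ℂ :=
  limUnder (hyperfilter ℕ : Filter ℕ) fun j => u j (rep ξ j)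

/-- a bounded sequence in `ℓ¹` -/
structure Bdd {G : Type*} (u : ℕ → G → ℂ) (B : ℝ) : Prop where
  sum : ∀ j, Summable fun x => ‖u j x‖
  le : ∀ j, ∑' x, ‖u j x‖ ≤ B

theorem rep_spec (ξ : HQ) : ((rep ξ : ℕ → ℚ) : HQ) = ξ := (Quotient.exists_rep ξ).choose_spec

theorem rep_coe (s : ℕ → ℚ) : rep (s : HQ) =ᶠ[(hyperfilter ℕ : Filter ℕ)] s :=
  Germ.coe_eq.1 (rep_spec (s : HQ))

theorem exists_lim_of_bdd {s : ℕ → ℂ} {B : ℝ} (h : ∀ j, ‖s j‖ ≤ B) :
    ∃ a : ℂ, ‖a‖ ≤ B ∧ Tendsto s (hyperfilter ℕ : Filter ℕ) (𝓝 a) := by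
  have hK : IsCompact (Metric.closedBall (0 : ℂ) B) := isCompact_closedBall 0 B
  obtain ⟨a, ha, hl⟩ := hK.ultrafilter_le_nhds ((hyperfilter ℕ).map s) (by
    rw [le_principal_iff]
    refine Filter.mem_map.2 (univ_mem' fun j => ?_)
    simpa using h j)
  exact ⟨a, by simpa using ha, hl⟩

theorem Bdd.norm_le {G : Type*} {u : ℕ → G → ℂ} {B : ℝ} (hu : Bdd u B) (j : ℕ) (x : G) :
    ‖u j x‖ ≤ B :=
  ((hu.sum j).le_tsum x (fun _ _ => norm_nonneg _)).trans (hu.le j)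

theorem Bdd.nonneg {G : Type*} {u : ℕ → G → ℂ} {B : ℝ} (hu : Bdd u B) : 0 ≤ B :=
  (tsum_nonneg (fun _ => norm_nonneg _)).trans (hu.le 0)

theorem Lim_tendsto_of_bdd {u : ℕ → ℚ → ℂ} {B : ℝ} (hu : ∀ j x, ‖u j x‖ ≤ B) (s : ℕ → ℚ) :
    Tendsto (fun j => u j (s j)) (hyperfilter ℕ : Filter ℕ) (𝓝 (Lim u (s : HQ))) := by
  have h1 : (fun j => u j (rep (s : HQ) j)) =ᶠ[(hyperfilter ℕ : Filter ℕ)] fun j => u j (s j) :=
    (rep_coe s).mono fun j hj => by simp only [hj]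
  obtain ⟨a, -, ha⟩ := exists_lim_of_bdd (s := fun j => u j (s j)) (fun j => hu j (s j))
  have h2 : Tendsto (fun j => u j (rep (s : HQ) j)) (hyperfilter ℕ : Filter ℕ) (𝓝 a) :=
    ha.congr' h1.symm
  have h3 : Lim u (s : HQ) = a := h2.limUnder_eq
  rw [h3]
  exact ha

theorem Lim_tendsto {u : ℕ → ℚ → ℂ} {B : ℝ} (hu : Bdd u B) (s : ℕ → ℚ) :
    Tendsto (fun j => u j (s j)) (hyperfilter ℕ : Filter ℕ) (𝓝 (Lim u (s : HQ))) :=
  Lim_tendsto_of_bdd (fun j x => hu.norm_le j x) s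

theorem Lim_tendsto_rep {u : ℕ → ℚ → ℂ} {B : ℝ} (hu : Bdd u B) (ξ : HQ) :
    Tendsto (fun j => u j (rep ξ j)) (hyperfilter ℕ : Filter ℕ) (𝓝 (Lim u ξ)) := by
  have := Lim_tendsto hu (rep ξ)
  rwa [rep_spec] at this

theorem Lim_eq_of_tendsto {u : ℕ → ℚ → ℂ} {s : ℕ → ℚ} {a : ℂ}
    (h : Tendsto (fun j => u j (s j)) (hyperfilter ℕ : Filter ℕ) (𝓝 a)) :
    Lim u (s : HQ) = a := by
  have h1 : (fun j => u j (rep (s : HQ) j)) =ᶠ[(hyperfilter ℕ : Filter ℕ)] fun j => u j (s j) :=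
    (rep_coe s).mono fun j hj => by simp only [hj]
  exact (h.congr' h1.symm).limUnder_eq

theorem rep_ne {ξ η : HQ} (h : ξ ≠ η) :
    ∀ᶠ j in (hyperfilter ℕ : Filter ℕ), rep ξ j ≠ rep η j := by
  refine Ultrafilter.eventually_not.2 fun h' => h ?_
  rw [← rep_spec ξ, ← rep_spec η]
  exact Germ.coe_eq.2 h'

theorem rep_injOn (T : Finset HQ) :
    ∀ᶠ j in (hyperfilter ℕ : Filter ℕ), Set.InjOn (fun ξ : HQ => rep ξ j) T := by
  have h : ∀ᶠ j in (hyperfilter ℕ : Filter ℕ), ∀ ξ ∈ T, ∀ η ∈ T, ξ ≠ η → rep ξ j ≠ rep η j := by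
    rw [Filter.eventually_all_finset]
    intro ξ _
    rw [Filter.eventually_all_finset]
    intro η _
    by_cases hne : ξ = η
    · exact Eventually.of_forall fun j h => absurd hne h
    · exact (rep_ne hne).mono fun j hj _ => hj
  refine h.mono fun j hj ξ hξ η hη heq => ?_
  by_contra hne
  exact hj ξ hξ η hη hne heq

theorem Lim_sum_le {u : ℕ → ℚ → ℂ} {B : ℝ} (hu : Bdd u B) (T : Finset HQ) :
    ∑ ξ ∈ T, ‖Lim u ξ‖ ≤ B := by
  have h1 : Tendsto (fun j => ∑ ξ ∈ T, ‖u j (rep ξ j)‖) (hyperfilter ℕ : Filter ℕ)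
      (𝓝 (∑ ξ ∈ T, ‖Lim u ξ‖)) :=
    tendsto_finsetSum T fun ξ _ => (Lim_tendsto_rep hu ξ).norm
  refine le_of_tendsto h1 ((rep_injOn T).mono fun j hj => ?_)
  classical
  rw [← Finset.sum_image (f := fun q => ‖u j q‖) hj]
  exact ((hu.sum j).sum_le_tsum _ (fun _ _ => norm_nonneg _)).trans (hu.le j)

theorem Lim_summable {u : ℕ → ℚ → ℂ} {B : ℝ} (hu : Bdd u B) :
    Summable (fun ξ => ‖Lim u ξ‖) ∧ ∑' ξ, ‖Lim u ξ‖ ≤ B := by
  have h := summable_of_sum_le (f := fun ξ => ‖Lim u ξ‖) (fun _ => norm_nonneg _) (Lim_sum_le hu)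
  exact ⟨h, h.tsum_le_of_sum_le (Lim_sum_le hu)⟩

/-- outside finitely many germs the values are small -/
theorem small_outside {u : ℕ → ℚ → ℂ} {B : ℝ} (hu : Bdd u B) {ε : ℝ} (T : Finset HQ)
    (hT : ∀ ξ ∉ T, ‖Lim u ξ‖ < ε) :
    ∀ᶠ j in (hyperfilter ℕ : Filter ℕ), ∀ q : ℚ, (∀ ξ ∈ T, q ≠ rep ξ j) → ‖u j q‖ ≤ ε := by
  by_contra hcon
  rw [← Ultrafilter.eventually_not] at hcon
  have hex : ∀ j, ∃ q : ℚ, (¬ ∀ q : ℚ, (∀ ξ ∈ T, q ≠ rep ξ j) → ‖u j q‖ ≤ ε) →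
      (∀ ξ ∈ T, q ≠ rep ξ j) ∧ ε < ‖u j q‖ := by
    intro j
    by_cases hj : ∀ q : ℚ, (∀ ξ ∈ T, q ≠ rep ξ j) → ‖u j q‖ ≤ ε
    · exact ⟨0, fun h => absurd hj h⟩
    · have hj' := hj
      push Not at hj'
      obtain ⟨q, hq1, hq2⟩ := hj'
      exact ⟨q, fun _ => ⟨hq1, hq2⟩⟩
  choose q hq using hex
  have h1 : ∀ᶠ j in (hyperfilter ℕ : Filter ℕ), (∀ ξ ∈ T, q j ≠ rep ξ j) ∧ ε < ‖u j (q j)‖ :=
    hcon.mono fun j hj => hq j hj
  have h2 : (q : HQ) ∉ T := by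
    intro hmem
    have h3 : ∀ᶠ j in (hyperfilter ℕ : Filter ℕ), False := by
      filter_upwards [h1, rep_coe q] with j hj hj2
      exact hj.1 _ hmem hj2.symm
    exact (hyperfilter ℕ : Filter ℕ).neBot_iff.1 inferInstance (Filter.eventually_false_iff_eq_bot.1 h3)
  have h4 : ε ≤ ‖Lim u (q : HQ)‖ :=
    ge_of_tendsto (Lim_tendsto hu q).norm (h1.mono fun j hj => hj.2.le)
  exact absurd (hT _ h2) (not_lt.2 h4)

theorem Lim_coe_sub (ξ : HQ) (s : ℕ → ℚ) :
    ξ - (s : HQ) = ((fun j => rep ξ j - s j : ℕ → ℚ) : HQ) := by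
  conv_lhs => rw [← rep_spec ξ]
  rfl

theorem conv_near {G : Type*} [AddCommGroup G] {u v : G → ℂ} {C ε : ℝ} (hu : Summable fun x => ‖u x‖)
    (hv : Summable fun x => ‖v x‖) (hC : ∑' x, ‖v x‖ ≤ C) (hε : 0 ≤ ε) (T : Finset G)
    (hT : ∀ x ∉ T, ‖u x‖ ≤ ε) (x : G) :
    ‖conv u v x - ∑ r ∈ T, u r * v (x - r)‖ ≤ ε * C := by
  classical
  have hs := summable_conv_term hu hv x
  have hs' : Summable fun r => u r * v (x - r) := Summable.of_norm hs
  have h1 : conv u v x - ∑ r ∈ T, u r * v (x - r)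
      = ∑' r : ↥((T : Set G)ᶜ), u r * v (x - r) := by
    have := hs'.sum_add_tsum_compl (s := T)
    unfold conv
    rw [← this]
    ring
  rw [h1]
  have hs2 : Summable fun r : ↥((T : Set G)ᶜ) => ‖u r * v (x - r)‖ :=
    hs.comp_injective Subtype.val_injective
  refine (norm_tsum_le_tsum_norm hs2).trans ?_
  have hvx : Summable fun r : G => ‖v (x - r)‖ := (Equiv.subLeft x).summable_iff.2 hv
  have hvx2 : Summable fun r : ↥((T : Set G)ᶜ) => ε * ‖v (x - r)‖ :=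
    (hvx.comp_injective Subtype.val_injective).mul_left ε
  have h2 : ∑' r : ↥((T : Set G)ᶜ), ‖u r * v (x - r)‖ ≤ ∑' r : ↥((T : Set G)ᶜ), ε * ‖v (x - r)‖ := by
    refine hs2.tsum_le_tsum (fun r => ?_) hvx2
    rw [norm_mul]
    exact mul_le_mul_of_nonneg_right (hT _ r.2) (norm_nonneg _)
  refine h2.trans ?_
  rw [tsum_mul_left]
  refine mul_le_mul_of_nonneg_left (le_trans ?_ hC) hε
  have h3 : ∑' r : G, ‖v (x - r)‖ = ∑' x, ‖v x‖ := (Equiv.subLeft x).tsum_eq (fun r => ‖v r‖)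
  rw [← h3]
  exact Summable.tsum_subtype_le (fun r : G => ‖v (x - r)‖) _ (fun _ => norm_nonneg _) hvx

theorem Bdd.conv {G : Type*} [AddCommGroup G] {u v : ℕ → G → ℂ} {B C : ℝ} (hu : Bdd u B)
    (hv : Bdd v C) : Bdd (fun j => conv (u j) (v j)) (B * C) where
  sum j := summable_conv (hu.sum j) (hv.sum j)
  le j := (tsum_norm_conv_le (hu.sum j) (hv.sum j)).trans
    (mul_le_mul (hu.le j) (hv.le j) (tsum_nonneg fun _ => norm_nonneg _) hu.nonneg)

theorem Lim_conv {u v : ℕ → ℚ → ℂ} {B C : ℝ} (hu : Bdd u B) (hv : Bdd v C) :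
    Lim (fun j => conv (u j) (v j)) = conv (Lim u) (Lim v) := by
  classical
  funext ξ
  have hC := hv.nonneg
  have key : ∀ ε : ℝ, 0 < ε →
      ‖Lim (fun j => conv (u j) (v j)) ξ - conv (Lim u) (Lim v) ξ‖ ≤ ε * C + ε * C := by
    intro ε hε
    obtain ⟨hLs, hLB⟩ := Lim_summable hu
    obtain ⟨hLvs, hLvB⟩ := Lim_summable hv
    have hfin : {η : HQ | ¬ ‖Lim u η‖ < ε}.Finite := by
      have := hLs.tendsto_cofinite_zero.eventually_lt_const hε
      exact Filter.eventually_cofinite.1 this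
    set T := hfin.toFinset with hTdef
    have hT : ∀ η ∉ T, ‖Lim u η‖ < ε := by
      intro η hη
      rw [hTdef, Set.Finite.mem_toFinset, Set.mem_ofPred_eq, not_not] at hη
      exact hη
    have h1 := conv_near hLs hLvs hLvB hε.le T (fun η hη => (hT η hη).le) ξ
    have h2 : ‖Lim (fun j => conv (u j) (v j)) ξ - ∑ r ∈ T, Lim u r * Lim v (ξ - r)‖ ≤ ε * C := by
      have hl1 := Lim_tendsto_rep (hu.conv hv) ξ
      have hl2 : Tendsto (fun j => ∑ r ∈ T, u j (rep r j) * v j (rep ξ j - rep r j))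
          (hyperfilter ℕ : Filter ℕ) (𝓝 (∑ r ∈ T, Lim u r * Lim v (ξ - r))) := by
        refine tendsto_finsetSum T fun r _ => (Lim_tendsto_rep hu r).mul ?_
        have := Lim_tendsto hv (fun j => rep ξ j - rep r j)
        rwa [← Lim_coe_sub, rep_spec] at this
      refine le_of_tendsto (hl1.sub hl2).norm ?_
      filter_upwards [rep_injOn T, small_outside hu T hT] with j hj1 hj2
      have h3 := conv_near (hu.sum j) (hv.sum j) (hv.le j) hε.le (T.image fun ξ => rep ξ j)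
        (fun q hq => hj2 q (fun η hη heq => hq (Finset.mem_image.2 ⟨η, hη, heq.symm⟩))) (rep ξ j)
      rw [Finset.sum_image hj1] at h3
      exact h3
    calc ‖Lim (fun j => conv (u j) (v j)) ξ - conv (Lim u) (Lim v) ξ‖
        = ‖(Lim (fun j => conv (u j) (v j)) ξ - ∑ r ∈ T, Lim u r * Lim v (ξ - r))
          - (conv (Lim u) (Lim v) ξ - ∑ r ∈ T, Lim u r * Lim v (ξ - r))‖ := by
          congr 1; ring
      _ ≤ _ := (norm_sub_le _ _).trans (add_le_add h2 h1)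
  rw [← sub_eq_zero, ← norm_le_zero_iff]
  refine le_of_forall_pos_le_add fun δ hδ => ?_
  have h := key (δ / (2 * (C + 1))) (by positivity)
  refine h.trans ?_
  have h4 : δ / (2 * (C + 1)) * C ≤ δ / 2 := by
    rw [div_mul_eq_mul_div, div_le_div_iff₀ (by positivity) two_pos]
    nlinarith
  linarith

/-! #### the star algebra of good functions -/

theorem Bdd.add {G : Type*} {u v : ℕ → G → ℂ} {B C : ℝ} (hu : Bdd u B) (hv : Bdd v C) :
    Bdd (fun j x => u j x + v j x) (B + C) where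
  sum j := Summable.of_nonneg_of_le (fun _ => norm_nonneg _) (fun _ => norm_add_le _ _)
    ((hu.sum j).add (hv.sum j))
  le j := by
    refine (Summable.tsum_le_tsum (fun _ => norm_add_le _ _)
      (Summable.of_nonneg_of_le (fun _ => norm_nonneg _) (fun _ => norm_add_le _ _)
      ((hu.sum j).add (hv.sum j))) ((hu.sum j).add (hv.sum j))).trans ?_
    rw [(hu.sum j).tsum_add (hv.sum j)]
    exact add_le_add (hu.le j) (hv.le j)

theorem Lim_add {u v : ℕ → ℚ → ℂ} {B C : ℝ} (hu : Bdd u B) (hv : Bdd v C) :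
    Lim (fun j x => u j x + v j x) = fun ξ => Lim u ξ + Lim v ξ := by
  funext ξ
  have h := (Lim_tendsto_rep hu ξ).add (Lim_tendsto_rep hv ξ)
  have := Lim_eq_of_tendsto (u := fun j x => u j x + v j x) (s := rep ξ) h
  rwa [rep_spec] at this

theorem ft_add {G : Type*} [AddCommGroup G] {u v : G → ℂ} (hu : Summable fun x => ‖u x‖)
    (hv : Summable fun x => ‖v x‖) (ω : DualG G) :
    ft (fun x => u x + v x) ω = ft u ω + ft v ω := by
  unfold ft
  rw [← (ft_summable hu ω).tsum_add (ft_summable hv ω)]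
  exact tsum_congr fun x => add_mul _ _ _

/-- the involution -/
noncomputable def til {G : Type*} [AddCommGroup G] (u : G → ℂ) (x : G) : ℂ :=
  (starRingEnd ℂ) (u (-x))

theorem Bdd.til {G : Type*} [AddCommGroup G] {u : ℕ → G → ℂ} {B : ℝ} (hu : Bdd u B) :
    Bdd (fun j => til (u j)) B where
  sum j := by
    have h : Summable fun x => ‖u j (-x)‖ := (Equiv.neg G).summable_iff.2 (hu.sum j)
    simpa [Pool.Agent.H92.til] using h
  le j := by
    have h : ∑' x, ‖u j (-x)‖ = ∑' x, ‖u j x‖ := (Equiv.neg G).tsum_eq (fun x => ‖u j x‖)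
    have h2 : ∑' x, ‖Pool.Agent.H92.til (u j) x‖ = ∑' x, ‖u j (-x)‖ :=
      tsum_congr fun x => by simp [Pool.Agent.H92.til]
    rw [h2, h]
    exact hu.le j

theorem DualG.map_neg {K : Type*} [AddCommGroup K] (ω : DualG K) (x : K) :
    ω (-x) = (ω x)⁻¹ := by
  have := ω.map_add (-x) x
  rw [neg_add_cancel, DualG.map_zero] at this
  exact eq_inv_of_mul_eq_one_left this.symm

theorem ft_til {G : Type*} [AddCommGroup G] (u : G → ℂ) (ω : DualG G) :
    ft (til u) ω = (starRingEnd ℂ) (ft u ω) := by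
  unfold ft til
  rw [Complex.conj_tsum, ← (Equiv.neg G).tsum_eq]
  refine tsum_congr fun x => ?_
  rw [Equiv.neg_apply, neg_neg, map_mul, DualG.map_neg, Circle.coe_inv_eq_conj]

theorem Lim_til {u : ℕ → ℚ → ℂ} {B : ℝ} (hu : Bdd u B) :
    Lim (fun j => til (u j)) = til (Lim u) := by
  funext ξ
  have h1 := Lim_tendsto hu (fun j => - rep ξ j)
  have h2 : ((fun j => - rep ξ j : ℕ → ℚ) : HQ) = -ξ := by
    conv_rhs => rw [← rep_spec ξ]
    rfl
  rw [h2] at h1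
  have h3 := (Complex.continuous_conj.tendsto _).comp h1
  have := Lim_eq_of_tendsto (u := fun j => til (u j)) (s := rep ξ) h3
  rwa [rep_spec] at this

open Classical in
/-- a multiple of the unit -/
noncomputable def dl {G : Type*} [AddCommGroup G] (c : ℂ) (x : G) : ℂ := if x = 0 then c else 0

open Classical in
theorem norm_dl {G : Type*} [AddCommGroup G] (c : ℂ) :
    (fun x : G => ‖dl c x‖) = Pi.single 0 ‖c‖ := by
  funext x
  by_cases h : x = 0
  · subst h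
    simp [dl]
  · simp [dl, h]

theorem Bdd.dl {G : Type*} [AddCommGroup G] (c : ℂ) : Bdd (fun _ : ℕ => dl (G := G) c) ‖c‖ where
  sum j := by
    classical
    rw [norm_dl]
    exact (hasSum_pi_single 0 ‖c‖).summable
  le j := by
    classical
    rw [norm_dl]
    exact (hasSum_pi_single 0 ‖c‖).tsum_eq.le

theorem ft_dl {G : Type*} [AddCommGroup G] (c : ℂ) (ω : DualG G) : ft (dl c) ω = c := by
  unfold ft
  rw [tsum_eq_single 0]
  · simp [dl, DualG.map_zero]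
  · intro x hx
    simp [dl, hx]

theorem Lim_dl (c : ℂ) : Lim (fun _ => dl c) = dl c := by
  funext ξ
  by_cases h : ξ = 0
  · subst h
    have h1 : (((fun _ => 0 : ℕ → ℚ)) : HQ) = 0 := rfl
    have h2 := Lim_eq_of_tendsto (u := fun _ => dl c) (s := fun _ => (0 : ℚ)) (a := c)
      (by simp [dl])
    rw [h1] at h2
    rw [h2]
    simp [dl]
  · have h1 : ∀ᶠ j in (hyperfilter ℕ : Filter ℕ), rep ξ j ≠ 0 := by
      refine Ultrafilter.eventually_not.2 fun h' => h ?_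
      rw [← rep_spec ξ]
      exact Germ.coe_eq.2 h'
    have h2 : Tendsto (fun j => (dl c (rep ξ j) : ℂ)) (hyperfilter ℕ : Filter ℕ) (𝓝 0) := by
      refine tendsto_const_nhds.congr' (h1.mono fun j hj => ?_)
      simp [dl, hj]
    have h3 := Lim_eq_of_tendsto (u := fun _ => dl c) h2
    rw [rep_spec] at h3
    rw [h3]
    simp [dl, h]

section goodalg

variable {u : ℕ → ℚ → ℂ} {B : ℝ}

/-- values in the ball -/
noncomputable def val1 (hu : Bdd u B) (j : ℕ) (χ : DualG ℚ) : Metric.closedBall (0 : ℂ) B :=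
  ⟨ft (u j) χ, by
    rw [mem_closedBall_zero_iff]
    exact (norm_ft_le (hu.sum j) χ).trans (hu.le j)⟩

/-- values in the ball -/
noncomputable def val2 (hu : Bdd u B) (ω : DualG HQ) : Metric.closedBall (0 : ℂ) B :=
  ⟨ft (Lim u) ω, by
    rw [mem_closedBall_zero_iff]
    exact (norm_ft_le (Lim_summable hu).1 ω).trans (Lim_summable hu).2⟩

theorem continuous_val1 (hu : Bdd u B) (j : ℕ) : Continuous (val1 hu j) :=
  Continuous.subtype_mk (continuous_ft (hu.sum j)) _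

theorem continuous_val2 (hu : Bdd u B) : Continuous (val2 hu) :=
  Continuous.subtype_mk (continuous_ft (Lim_summable hu).1) _

/-- good functions -/
def GoodFn (hu : Bdd u B) (Ψ : C(Metric.closedBall (0 : ℂ) B, ℂ)) : Prop :=
  ∃ (U : ℕ → ℚ → ℂ) (B' : ℝ), Bdd U B' ∧ (∀ j χ, ft (U j) χ = Ψ (val1 hu j χ)) ∧
    ∀ ω, ft (Lim U) ω = Ψ (val2 hu ω)

/-- the algebra of good functions -/
noncomputable def goodAlg (hu : Bdd u B) : StarSubalgebra ℂ C(Metric.closedBall (0 : ℂ) B, ℂ) where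
  carrier := {Ψ | GoodFn hu Ψ}
  mul_mem' := by
    rintro Ψ₁ Ψ₂ ⟨U, B₁, hU, hU1, hU2⟩ ⟨V, B₂, hV, hV1, hV2⟩
    refine ⟨fun j => conv (U j) (V j), B₁ * B₂, hU.conv hV, fun j χ => ?_, fun ω => ?_⟩
    · rw [ft_conv (hU.sum j) (hV.sum j), hU1, hV1]
      rfl
    · rw [Lim_conv hU hV, ft_conv (Lim_summable hU).1 (Lim_summable hV).1, hU2, hV2]
      rfl
  add_mem' := by
    rintro Ψ₁ Ψ₂ ⟨U, B₁, hU, hU1, hU2⟩ ⟨V, B₂, hV, hV1, hV2⟩
    refine ⟨fun j x => U j x + V j x, B₁ + B₂, hU.add hV, fun j χ => ?_, fun ω => ?_⟩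
    · rw [ft_add (hU.sum j) (hV.sum j), hU1, hV1]
      rfl
    · rw [Lim_add hU hV, ft_add (Lim_summable hU).1 (Lim_summable hV).1, hU2, hV2]
      rfl
  algebraMap_mem' := by
    intro c
    refine ⟨fun _ => dl c, ‖c‖, Bdd.dl c, fun j χ => ?_, fun ω => ?_⟩
    · rw [ft_dl]
      rfl
    · rw [Lim_dl, ft_dl]
      rfl
  star_mem' := by
    rintro Ψ ⟨U, B₁, hU, hU1, hU2⟩
    refine ⟨fun j => til (U j), B₁, hU.til, fun j χ => ?_, fun ω => ?_⟩
    · rw [ft_til, hU1]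
      rfl
    · rw [Lim_til hU, ft_til, hU2]
      rfl

theorem goodAlg_dense (hu : Bdd u B) : (goodAlg hu).topologicalClosure = ⊤ := by
  refine ContinuousMap.starSubalgebra_topologicalClosure_eq_top_of_separatesPoints _ ?_
  intro x y hxy
  refine ⟨fun z => (z : ℂ), ⟨⟨fun z => (z : ℂ), continuous_subtype_val⟩, ?_, rfl⟩,
    fun h => hxy (Subtype.ext h)⟩
  exact ⟨u, B, hu, fun j χ => rfl, fun ω => rfl⟩

theorem GoodFn.tendsto (hu : Bdd u B) {Ψ : C(Metric.closedBall (0 : ℂ) B, ℂ)} (h : GoodFn hu Ψ) :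
    Tendsto (fun j => ∫ χ, Ψ (val1 hu j χ) ∂(mu ℚ)) (hyperfilter ℕ : Filter ℕ)
      (𝓝 (∫ ω, Ψ (val2 hu ω) ∂(mu HQ))) := by
  obtain ⟨U, B', hU, hU1, hU2⟩ := h
  simp_rw [← hU1, ← hU2]
  rw [integral_ft (Lim_summable hU).1]
  have h1 : ∀ j, ∫ χ, ft (U j) χ ∂(mu ℚ) = U j 0 := fun j => integral_ft (hU.sum j)
  simp_rw [h1]
  exact Lim_tendsto hU (fun _ => 0)

theorem tendsto_all (hu : Bdd u B) (Ψ : C(Metric.closedBall (0 : ℂ) B, ℂ)) :
    Tendsto (fun j => ∫ χ, Ψ (val1 hu j χ) ∂(mu ℚ)) (hyperfilter ℕ : Filter ℕ)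
      (𝓝 (∫ ω, Ψ (val2 hu ω) ∂(mu HQ))) := by
  have hmem : Ψ ∈ closure ((goodAlg hu : StarSubalgebra ℂ C(Metric.closedBall (0 : ℂ) B, ℂ)) :
      Set C(Metric.closedBall (0 : ℂ) B, ℂ)) := by
    have h : Ψ ∈ (goodAlg hu).topologicalClosure := by
      rw [goodAlg_dense hu]
      trivial
    exact h
  have hint : ∀ (Ψ' : C(Metric.closedBall (0 : ℂ) B, ℂ)) (j : ℕ),
      Integrable (fun χ => Ψ' (val1 hu j χ)) (mu ℚ) := fun Ψ' j =>
    integrable_cont (Ψ'.continuous.comp (continuous_val1 hu j))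
  have hint2 : ∀ (Ψ' : C(Metric.closedBall (0 : ℂ) B, ℂ)),
      Integrable (fun ω => Ψ' (val2 hu ω)) (mu HQ) := fun Ψ' =>
    integrable_cont (Ψ'.continuous.comp (continuous_val2 hu))
  rw [Metric.tendsto_nhds]
  intro ε hε
  obtain ⟨Ψ', hΨ', hd⟩ := Metric.mem_closure_iff.1 hmem (ε / 3) (by positivity)
  have hpt : ∀ x, ‖Ψ x - Ψ' x‖ ≤ ε / 3 := fun x => by
    rw [← dist_eq_norm]
    exact (ContinuousMap.dist_apply_le_dist x).trans hd.le
  have h1 : ∀ j, ‖∫ χ, Ψ (val1 hu j χ) ∂(mu ℚ) - ∫ χ, Ψ' (val1 hu j χ) ∂(mu ℚ)‖ ≤ ε / 3 := by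
    intro j
    rw [← integral_sub (hint Ψ j) (hint Ψ' j)]
    refine (norm_integral_le_of_norm_le_const (C := ε / 3) (Eventually.of_forall fun χ => hpt _)).trans ?_
    simp
  have h2 : ‖∫ ω, Ψ (val2 hu ω) ∂(mu HQ) - ∫ ω, Ψ' (val2 hu ω) ∂(mu HQ)‖ ≤ ε / 3 := by
    rw [← integral_sub (hint2 Ψ) (hint2 Ψ')]
    refine (norm_integral_le_of_norm_le_const (C := ε / 3) (Eventually.of_forall fun χ => hpt _)).trans ?_
    simp
  have h3 := Metric.tendsto_nhds.1 (GoodFn.tendsto hu hΨ') (ε / 3) (by positivity)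
  filter_upwards [h3] with j hj
  rw [dist_eq_norm] at hj ⊢
  calc ‖∫ χ, Ψ (val1 hu j χ) ∂(mu ℚ) - ∫ ω, Ψ (val2 hu ω) ∂(mu HQ)‖
      = ‖(∫ χ, Ψ (val1 hu j χ) ∂(mu ℚ) - ∫ χ, Ψ' (val1 hu j χ) ∂(mu ℚ))
        + (∫ χ, Ψ' (val1 hu j χ) ∂(mu ℚ) - ∫ ω, Ψ' (val2 hu ω) ∂(mu HQ))
        - (∫ ω, Ψ (val2 hu ω) ∂(mu HQ) - ∫ ω, Ψ' (val2 hu ω) ∂(mu HQ))‖ := by
        congr 1; ring
    _ ≤ ‖∫ χ, Ψ (val1 hu j χ) ∂(mu ℚ) - ∫ χ, Ψ' (val1 hu j χ) ∂(mu ℚ)‖
        + ‖∫ χ, Ψ' (val1 hu j χ) ∂(mu ℚ) - ∫ ω, Ψ' (val2 hu ω) ∂(mu HQ)‖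
        + ‖∫ ω, Ψ (val2 hu ω) ∂(mu HQ) - ∫ ω, Ψ' (val2 hu ω) ∂(mu HQ)‖ :=
        (norm_sub_le _ _).trans (add_le_add (norm_add_le _ _) le_rfl)
    _ < ε := by linarith [h1 j]

end goodalg

theorem Lim_integral {u : ℕ → ℚ → ℂ} {B : ℝ} (hu : Bdd u B) {Φ : ℂ → ℝ} (hΦ : Continuous Φ) :
    Tendsto (fun j => ∫ χ, Φ (ft (u j) χ) ∂(mu ℚ)) (hyperfilter ℕ : Filter ℕ)
      (𝓝 (∫ ω, Φ (ft (Lim u) ω) ∂(mu HQ))) := by
  have h := tendsto_all hu ⟨fun z => ((Φ z : ℝ) : ℂ), by fun_prop⟩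
  have h1 : ∀ j, ∫ χ, (((Φ (ft (u j) χ) : ℝ)) : ℂ) ∂(mu ℚ)
      = ((∫ χ, Φ (ft (u j) χ) ∂(mu ℚ) : ℝ) : ℂ) := fun j => integral_ofReal
  have h2 : ∫ ω, (((Φ (ft (Lim u) ω) : ℝ)) : ℂ) ∂(mu HQ)
      = ((∫ ω, Φ (ft (Lim u) ω) ∂(mu HQ) : ℝ) : ℂ) := integral_ofReal
  have h3 : Tendsto (fun j => ((∫ χ, Φ (ft (u j) χ) ∂(mu ℚ) : ℝ) : ℂ)) (hyperfilter ℕ : Filter ℕ)
      (𝓝 ((∫ ω, Φ (ft (Lim u) ω) ∂(mu HQ) : ℝ) : ℂ)) := by
    simp_rw [← h1, ← h2]
    exact h
  have h4 := (Complex.continuous_re.tendsto _).comp h3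
  simpa [Function.comp_def] using h4

/-! #### damping -/

/-- real damping -/
noncomputable def rd (p : ℚ) (h : ℚ → ℂ) (q : ℚ) : ℂ := h q * Real.exp (-((q / p : ℚ) : ℝ))

theorem germ_lt {s t : ℕ → ℚ} :
    ((s : HQ) < (t : HQ)) ↔ ∀ᶠ j in (hyperfilter ℕ : Filter ℕ), s j < t j := Germ.coe_lt

theorem germ_le {s t : ℕ → ℚ} :
    ((s : HQ) ≤ (t : HQ)) ↔ ∀ᶠ j in (hyperfilter ℕ : Filter ℕ), s j ≤ t j := Germ.coe_le

theorem germ_ratCast (q : ℚ) : ((q : ℚ) : HQ) = ((fun _ => q : ℕ → ℚ) : HQ) := by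
  have h := eq_ratCast ((Germ.coeRingHom (hyperfilter ℕ : Filter ℕ)).comp (Pi.constRingHom ℕ ℚ)) q
  rw [← h]
  rfl

/-- a finite germ tends to its standard part -/
theorem tendsto_stdPart {s : ℕ → ℚ} (h : 0 ≤ ArchimedeanClass.mk (s : HQ)) :
    Tendsto (fun j => (s j : ℝ)) (hyperfilter ℕ : Filter ℕ)
      (𝓝 (ArchimedeanClass.stdPart (s : HQ))) := by
  rw [tendsto_order]
  constructor
  · intro a ha
    obtain ⟨q, hq1, hq2⟩ := exists_rat_btwn ha
    have h1 : ((q : ℚ) : HQ) < (s : HQ) := by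
      by_contra hcon
      rw [not_lt] at hcon
      have h3 := ArchimedeanClass.stdPart_monotoneOn h (ArchimedeanClass.mk_ratCast_nonneg q) hcon
      rw [ArchimedeanClass.stdPart_ratCast] at h3
      exact absurd hq2 (not_lt.2 h3)
    rw [germ_ratCast, germ_lt] at h1
    refine h1.mono fun j hj => hq1.trans ?_
    exact_mod_cast hj
  · intro a ha
    obtain ⟨q, hq1, hq2⟩ := exists_rat_btwn ha
    have h1 : (s : HQ) < ((q : ℚ) : HQ) := by
      by_contra hcon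
      rw [not_lt] at hcon
      have h3 := ArchimedeanClass.stdPart_monotoneOn (ArchimedeanClass.mk_ratCast_nonneg q) h hcon
      rw [ArchimedeanClass.stdPart_ratCast] at h3
      exact absurd hq1 (not_lt.2 h3)
    rw [germ_ratCast, germ_lt] at h1
    refine h1.mono fun j hj => lt_trans ?_ hq2
    exact_mod_cast hj

theorem Lim_damp {u : ℕ → ℚ → ℂ} {B : ℝ} (hu : Bdd u B) (h0 : ∀ j, ∀ q < 0, u j q = 0)
    {p : ℕ → ℚ} (hp : ∀ j, 0 < p j) :
    Lim (fun j => rd (p j) (u j)) = damp (p : HQ) 1 (Lim u) := by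
  funext ξ
  have hl := Lim_tendsto_rep hu ξ
  have hpp : (0 : HQ) < (p : HQ) := by
    have h : ((fun _ => 0 : ℕ → ℚ) : HQ) < (p : HQ) := germ_lt.2 (Eventually.of_forall hp)
    exact h
  have hdiv : ξ / (p : HQ) = ((fun j => rep ξ j / p j : ℕ → ℚ) : HQ) := by
    conv_lhs => rw [← rep_spec ξ]
    rfl
  have hgoal : ∀ a : ℂ, Tendsto (fun j => rd (p j) (u j) (rep ξ j)) (hyperfilter ℕ : Filter ℕ) (𝓝 a) →
      Lim (fun j => rd (p j) (u j)) ξ = a := by
    intro a ha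
    have := Lim_eq_of_tendsto (u := fun j => rd (p j) (u j)) (s := rep ξ) ha
    rwa [rep_spec] at this
  refine hgoal _ ?_
  rcases lt_or_ge ξ 0 with hneg | hpos
  · -- negative germs
    have h1 : ∀ᶠ j in (hyperfilter ℕ : Filter ℕ), rep ξ j < 0 := by
      have h : ((rep ξ : ℕ → ℚ) : HQ) < ((fun _ => 0 : ℕ → ℚ) : HQ) := by
        rw [rep_spec]
        exact hneg
      exact germ_lt.1 h
    have h2 : Lim u ξ = 0 := by
      refine tendsto_nhds_unique hl ?_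
      exact tendsto_const_nhds.congr' (h1.mono fun j hj => (h0 j _ hj).symm)
    unfold damp
    rw [h2, zero_mul]
    refine tendsto_const_nhds.congr' (h1.mono fun j hj => ?_)
    simp only [rd, h0 j _ hj, zero_mul]
  · have h1 : ∀ᶠ j in (hyperfilter ℕ : Filter ℕ), 0 ≤ rep ξ j := by
      have h : ((fun _ => 0 : ℕ → ℚ) : HQ) ≤ ((rep ξ : ℕ → ℚ) : HQ) := by
        rw [rep_spec]
        exact hpos
      exact germ_le.1 h
    by_cases hO : ξ ∈ OO (p : HQ)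
    · -- finite germs
      have hO' : 0 ≤ ArchimedeanClass.mk (((fun j => rep ξ j / p j : ℕ → ℚ)) : HQ) := by
        rw [← hdiv]
        exact hO
      have h2 := tendsto_stdPart hO'
      rw [← hdiv, ← lam_apply hO] at h2
      unfold damp dmp
      rw [if_pos hO]
      have h3 : Tendsto (fun j => ((Real.exp (-((rep ξ j / p j : ℚ) : ℝ)) : ℝ) : ℂ))
          (hyperfilter ℕ : Filter ℕ) (𝓝 (Complex.exp (-1 * (lam (p : HQ) ξ : ℂ)))) := by
        have h4 : Complex.exp (-1 * (lam (p : HQ) ξ : ℂ))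
            = ((Real.exp (-(lam (p : HQ) ξ)) : ℝ) : ℂ) := by
          push_cast
          ring_nf
        rw [h4]
        exact ((Complex.continuous_ofReal.comp (Real.continuous_exp.comp continuous_neg)).tendsto _).comp h2
      exact hl.mul h3
    · -- infinite germs
      unfold damp dmp
      rw [if_neg hO, mul_zero]
      have h2 : Tendsto (fun j => ((rep ξ j / p j : ℚ) : ℝ)) (hyperfilter ℕ : Filter ℕ) atTop := by
        rw [tendsto_atTop]
        intro b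
        obtain ⟨n, hn⟩ := exists_nat_ge b
        have h3 : ((n : ℚ) : HQ) * (p : HQ) < ξ := by
          by_contra hcon
          rw [not_lt] at hcon
          refine hO ((mem_OO_iff hpp).2 ⟨n, ?_⟩)
          rw [abs_of_nonneg hpos]
          simpa using hcon
        have h4 : ((n : ℚ) : HQ) * (p : HQ) = ((fun j => (n : ℚ) * p j : ℕ → ℚ) : HQ) := by
          rw [germ_ratCast]
          rfl
        rw [h4, ← rep_spec ξ] at h3
        refine (germ_lt.1 h3).mono fun j hj => hn.trans ?_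
        have h5 : (n : ℚ) ≤ rep ξ j / p j := by
          rw [le_div_iff₀ (hp j)]
          exact hj.le
        exact_mod_cast h5
      have h3 : Tendsto (fun j => B * Real.exp (-((rep ξ j / p j : ℚ) : ℝ)))
          (hyperfilter ℕ : Filter ℕ) (𝓝 0) := by
        have := (Real.tendsto_exp_neg_atTop_nhds_zero.comp h2).const_mul B
        simpa using this
      refine squeeze_zero_norm (fun j => ?_) h3
      unfold rd
      rw [norm_mul]
      refine mul_le_mul (hu.norm_le j _) ?_ (norm_nonneg _) hu.nonneg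
      rw [Complex.norm_real, Real.norm_eq_abs, abs_of_pos (Real.exp_pos _)]

/-! #### atoms -/

theorem tendsto_cf : Tendsto cf atTop (𝓝 0) := by
  have h1 : Tendsto (fun i : ℕ => (5 : ℝ) / 10 ^ (i / 6)) atTop (𝓝 0) := by
    have h2 : Tendsto (fun i : ℕ => i / 6) atTop atTop :=
      Nat.tendsto_div_const_atTop (by norm_num)
    have h3 : Tendsto (fun k : ℕ => (5 : ℝ) * ((1 / 10 : ℝ)) ^ k) atTop (𝓝 (5 * 0)) :=
      (tendsto_pow_atTop_nhds_zero_of_lt_one (by norm_num) (by norm_num)).const_mul 5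
    rw [mul_zero] at h3
    refine (h3.comp h2).congr fun i => ?_
    simp only [Function.comp_apply, one_div, inv_pow]
    rw [div_eq_mul_inv]
  refine squeeze_zero (fun i => ?_) (fun i => ?_) h1
  · unfold cf
    split_ifs <;> positivity
  · unfold cf
    gcongr
    split_ifs <;> norm_num

theorem Lim_atoms {t : ℕ → ℕ → ℚ} (ht : ∀ j, StrictAnti (t j)) :
    Lim (fun j => atoms (t j)) = atoms (fun i => ((fun j => t j i : ℕ → ℚ) : HQ)) := by
  have hinj : Function.Injective (fun i => ((fun j => t j i : ℕ → ℚ) : HQ)) := by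
    intro a b hab
    have h1 : ∀ᶠ j in (hyperfilter ℕ : Filter ℕ), t j a = t j b := Germ.coe_eq.1 hab
    obtain ⟨j, hj⟩ := h1.exists
    exact (ht j).injective hj
  funext ξ
  by_cases h : ∃ i, ((fun j => t j i : ℕ → ℚ) : HQ) = ξ
  · obtain ⟨i, rfl⟩ := h
    have h1 : atoms (fun i => ((fun j => t j i : ℕ → ℚ) : HQ)) ((fun j => t j i : ℕ → ℚ) : HQ)
        = (cf i : ℂ) := hinj.extend_apply _ _ i
    rw [h1]
    refine Lim_eq_of_tendsto (u := fun j => atoms (t j)) (s := fun j => t j i) ?_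
    refine tendsto_const_nhds.congr fun j => ?_
    exact ((ht j).injective.extend_apply (fun i => (cf i : ℂ)) 0 i).symm
  · have h1 : atoms (fun i => ((fun j => t j i : ℕ → ℚ) : HQ)) ξ = 0 :=
      Function.extend_apply' _ _ _ (by simpa using h)
    rw [h1]
    have h2 : Tendsto (fun j => atoms (t j) (rep ξ j)) (hyperfilter ℕ : Filter ℕ) (𝓝 0) := by
      rw [Metric.tendsto_nhds]
      intro ε hε
      obtain ⟨N, hN⟩ := Filter.eventually_atTop.1 (Metric.tendsto_nhds.1 tendsto_cf ε hε)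
      have h3 : ∀ᶠ j in (hyperfilter ℕ : Filter ℕ), ∀ i ∈ Finset.range N, t j i ≠ rep ξ j := by
        rw [Filter.eventually_all_finset]
        intro i _
        refine Ultrafilter.eventually_not.2 fun h' => h ⟨i, ?_⟩
        rw [← rep_spec ξ]
        exact Germ.coe_eq.2 h'
      refine h3.mono fun j hj => ?_
      by_cases hex : ∃ i, t j i = rep ξ j
      · obtain ⟨i, hi⟩ := hex
        have h4 : N ≤ i := by
          by_contra hlt
          exact hj i (Finset.mem_range.2 (not_le.1 hlt)) hi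
        have h5 : atoms (t j) (rep ξ j) = (cf i : ℂ) := by
          rw [← hi]
          exact (ht j).injective.extend_apply (fun i => (cf i : ℂ)) 0 i
        rw [h5]
        have h6 := hN i h4
        rw [dist_zero_right] at h6 ⊢
        rwa [Complex.norm_real]
      · have h5 : atoms (t j) (rep ξ j) = 0 := Function.extend_apply' _ _ _ hex
        rw [h5, dist_self]
        exact hε
    have := Lim_eq_of_tendsto (u := fun j => atoms (t j)) (s := rep ξ) h2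
    rwa [rep_spec] at this

end C

end Pool.Agent.H92
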