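import Mathlib

/-!
Measures on compact intervals `[0,R]`: determinacy by moments, weak limits, the Lueck bound.
-/

set_option autoImplicit false
set_option linter.style.haveILetI false

open MeasureTheory Filter Topology Set
open scoped ENNReal NNReal BoundedContinuousFunction

namespace Pool.H29.Mom

/-- a finite measure on `ℝ` carried by `[0, R]` -/
structure On (R : ℝ) (μ : Measure ℝ) : Prop where
  fin : IsFiniteMeasure μ
  supp : μ (Icc 0 R)ᶜ = 0

namespace On

variable {R : ℝ} {μ ν : Measure ℝ}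

theorem ae (h : On R μ) : ∀ᵐ x ∂μ, x ∈ Icc 0 R := by
  rw [ae_iff]
  exact h.supp

theorem restrict (h : On R μ) : μ.restrict (Icc 0 R) = μ :=
  Measure.restrict_eq_self_of_ae_mem h.ae

theorem mono {R' : ℝ} (h : On R μ) (hR : R ≤ R') : On R' μ :=
  ⟨h.fin, measure_mono_null (compl_subset_compl.2 (Icc_subset_Icc_right hR)) h.supp⟩

theorem add (hμ : On R μ) (hν : On R ν) : On R (μ + ν) := by
  haveI := hμ.fin
  haveI := hν.fin
  exact ⟨inferInstance, by rw [Measure.add_apply, hμ.supp, hν.supp, add_zero]⟩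

theorem zero : On R (0 : Measure ℝ) := ⟨inferInstance, by simp⟩

theorem smul (hμ : On R μ) {c : ℝ≥0∞} (hc : c ≠ ∞) : On R (c • μ) := by
  haveI := hμ.fin
  exact ⟨Measure.smul_finite μ hc, by rw [Measure.smul_apply, hμ.supp, smul_zero]⟩

theorem sum {ι : Type*} (s : Finset ι) {μ : ι → Measure ℝ} (h : ∀ i ∈ s, On R (μ i)) :
    On R (∑ i ∈ s, μ i) := by
  classical
  induction s using Finset.induction_on with
  | empty => simpa using zero
  | insert i s hi ih =>
    rw [Finset.sum_insert hi]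
    exact (h i (Finset.mem_insert_self i s)).add
      (ih fun j hj => h j (Finset.mem_insert_of_mem hj))

theorem integrable (h : On R μ) {f : ℝ → ℝ} (hf : Continuous f) : Integrable f μ := by
  haveI := h.fin
  rw [← h.restrict]
  exact (hf.continuousOn.integrableOn_compact isCompact_Icc)

theorem integral_sub_le (h : On R μ) {f g : ℝ → ℝ} (hf : Continuous f) (hg : Continuous g) {ε : ℝ}
    (hε : ∀ x ∈ Icc 0 R, |f x - g x| ≤ ε) : |∫ x, f x ∂μ - ∫ x, g x ∂μ| ≤ ε * μ.real univ := by
  haveI := h.fin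
  rw [← integral_sub (h.integrable hf) (h.integrable hg)]
  have h1 : ∀ᵐ x ∂μ, ‖f x - g x‖ ≤ ε := h.ae.mono fun x hx => hε x hx
  simpa using norm_integral_le_of_norm_le_const h1

end On

variable {R : ℝ}

/-- integrals of polynomials in terms of moments -/
theorem integral_poly {μ : Measure ℝ} (h : On R μ) (p : Polynomial ℝ) :
    ∫ x, p.eval x ∂μ = p.sum fun k a => a * ∫ x, x ^ k ∂μ := by
  have h1 : ∀ x : ℝ, p.eval x = ∑ k ∈ p.support, p.coeff k * x ^ k := fun x => by
    rw [Polynomial.eval_eq_sum, Polynomial.sum]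
  simp_rw [h1]
  rw [integral_finsetSum, Polynomial.sum]
  · refine Finset.sum_congr rfl fun k _ => ?_
    rw [integral_const_mul]
  · intro k _
    exact h.integrable (by fun_prop)

/-- the measure is determined by its moments -/
theorem integral_eq_of_moments {μ ν : Measure ℝ} (hμ : On R μ) (hν : On R ν)
    (h : ∀ k : ℕ, ∫ x, x ^ k ∂μ = ∫ x, x ^ k ∂ν) {f : ℝ → ℝ} (hf : Continuous f) :
    ∫ x, f x ∂μ = ∫ x, f x ∂ν := by
  have key : ∀ ε : ℝ, 0 < ε → |∫ x, f x ∂μ - ∫ x, f x ∂ν| ≤ ε * (μ.real univ + ν.real univ) := by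
    intro ε hε
    obtain ⟨p, hp⟩ := exists_polynomial_near_of_continuousOn 0 R f hf.continuousOn ε hε
    have h1 := hμ.integral_sub_le hf p.continuous (ε := ε)
      (fun x hx => by rw [abs_sub_comm]; exact (hp x hx).le)
    have h2 := hν.integral_sub_le hf p.continuous (ε := ε)
      (fun x hx => by rw [abs_sub_comm]; exact (hp x hx).le)
    have h3 : ∫ x, p.eval x ∂μ = ∫ x, p.eval x ∂ν := by
      rw [integral_poly hμ, integral_poly hν, Polynomial.sum, Polynomial.sum]
      exact Finset.sum_congr rfl fun k _ => by rw [h k]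
    rw [h3] at h1
    rw [abs_le] at h1 h2 ⊢
    constructor <;> linarith [h1.1, h1.2, h2.1, h2.2]
  have h0 : 0 ≤ μ.real univ + ν.real univ := by positivity
  have h4 : |∫ x, f x ∂μ - ∫ x, f x ∂ν| ≤ 0 := by
    refine le_of_forall_pos_le_add fun δ hδ => ?_
    refine (key (δ / (μ.real univ + ν.real univ + 1)) (by positivity)).trans ?_
    rw [zero_add, div_mul_eq_mul_div, div_le_iff₀ (by positivity)]
    nlinarith
  exact sub_eq_zero.1 (abs_nonpos_iff.1 h4)

theorem ext_of_moments {μ ν : Measure ℝ} (hμ : On R μ) (hν : On R ν)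
    (h : ∀ k : ℕ, ∫ x, x ^ k ∂μ = ∫ x, x ^ k ∂ν) : μ = ν := by
  haveI := hμ.fin
  haveI := hν.fin
  exact ext_of_forall_integral_eq_of_IsFiniteMeasure fun f =>
    integral_eq_of_moments hμ hν h f.continuous

/-- convergence of moments implies weak convergence to any measure with the limit moments -/
theorem tendsto_integral {μ : ℕ → Measure ℝ} {ν : Measure ℝ} (hμ : ∀ n, On R (μ n)) (hν : On R ν)
    (h : ∀ k : ℕ, Tendsto (fun n => ∫ x, x ^ k ∂(μ n)) atTop (𝓝 (∫ x, x ^ k ∂ν)))
    {f : ℝ → ℝ} (hf : Continuous f) :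
    Tendsto (fun n => ∫ x, f x ∂(μ n)) atTop (𝓝 (∫ x, f x ∂ν)) := by
  have hm : Tendsto (fun n => (μ n).real univ) atTop (𝓝 (ν.real univ)) := by
    have := h 0
    simpa using this
  rw [Metric.tendsto_atTop]
  intro ε hε
  set M : ℝ := 2 * ν.real univ + 1 with hM
  have hM0 : 0 < M := by have : 0 ≤ ν.real univ := measureReal_nonneg; linarith
  obtain ⟨p, hp⟩ := exists_polynomial_near_of_continuousOn 0 R f hf.continuousOn (ε / (4 * M))
    (by positivity)
  have hpt : Tendsto (fun n => ∫ x, p.eval x ∂(μ n)) atTop (𝓝 (∫ x, p.eval x ∂ν)) := by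
    rw [integral_poly hν]
    simp_rw [fun n => integral_poly (hμ n) p]
    rw [Polynomial.sum]
    simp_rw [Polynomial.sum]
    exact tendsto_finsetSum _ fun k _ => (h k).const_mul _
  have e1 : ∀ᶠ n in atTop, (μ n).real univ < ν.real univ + 1 :=
    hm.eventually_lt_const (by linarith)
  have e2 : ∀ᶠ n in atTop, dist (∫ x, p.eval x ∂(μ n)) (∫ x, p.eval x ∂ν) < ε / 2 :=
    (Metric.tendsto_nhds.1 hpt) _ (by positivity)
  obtain ⟨N, hN⟩ := (e1.and e2).exists_forall_of_atTop
  refine ⟨N, fun n hn => ?_⟩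
  obtain ⟨h1, h2⟩ := hN n hn
  have h3 := (hμ n).integral_sub_le hf p.continuous (ε := ε / (4 * M))
    (fun x hx => by rw [abs_sub_comm]; exact (hp x hx).le)
  have h4 := hν.integral_sub_le hf p.continuous (ε := ε / (4 * M))
    (fun x hx => by rw [abs_sub_comm]; exact (hp x hx).le)
  have h5 : ε / (4 * M) * (μ n).real univ + ε / (4 * M) * ν.real univ < ε / 2 := by
    rw [← mul_add, div_mul_eq_mul_div, div_lt_div_iff₀ (by positivity) (by norm_num)]
    have : (μ n).real univ + ν.real univ < M := by rw [hM]; linarith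
    nlinarith
  rw [Real.dist_eq] at h2 ⊢
  rw [abs_lt] at h2 ⊢
  rw [abs_le] at h3 h4
  constructor <;> linarith [h3.1, h3.2, h4.1, h4.2, h2.1, h2.2]

/-- a sequence of measures on `[0,R]` with convergent moments has a limit measure -/
theorem exists_limit {μ : ℕ → Measure ℝ} (hμ : ∀ n, On R (μ n)) {m : ℕ → ℝ}
    (hm : ∀ k : ℕ, Tendsto (fun n => ∫ x, x ^ k ∂(μ n)) atTop (𝓝 (m k))) :
    ∃ ν, On R ν ∧ ∀ k : ℕ, ∫ x, x ^ k ∂ν = m k := by
  -- bound of the masses
  have hm0 : Tendsto (fun n => (μ n).real univ) atTop (𝓝 (m 0)) := by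
    have := hm 0
    simpa using this
  obtain ⟨C, hC⟩ := hm0.bddAbove_range
  have hC' : ∀ n, (μ n).real univ ≤ C := fun n => hC ⟨n, rfl⟩
  have hfin : ∀ n, IsFiniteMeasure (μ n) := fun n => (hμ n).fin
  set F : ℕ → FiniteMeasure ℝ := fun n => ⟨μ n, hfin n⟩ with hF
  have hcomp := isCompact_setOfPred_finiteMeasure_le_of_isCompact (E := ℝ) C.toNNReal
    (isCompact_Icc (a := (0 : ℝ)) (b := R))
  have hmem : ∀ n, F n ∈ {μ : FiniteMeasure ℝ | μ.mass ≤ C.toNNReal ∧ μ (Icc 0 R)ᶜ = 0} := by
    intro n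
    constructor
    · have h1 : ((F n).mass : ℝ) = (μ n).real univ := rfl
      rw [← NNReal.coe_le_coe, h1]
      exact (hC' n).trans (Real.le_coe_toNNReal C)
    · rw [FiniteMeasure.null_iff_toMeasure_null]
      exact (hμ n).supp
  obtain ⟨G, hG, hGl⟩ := hcomp.ultrafilter_le_nhds ((hyperfilter ℕ).map F) (by
    rw [le_principal_iff]
    exact Filter.mem_map.2 (Filter.univ_mem' hmem))
  have hGt : Tendsto F (hyperfilter ℕ : Filter ℕ) (𝓝 G) := hGl
  have hGon : On R (G : Measure ℝ) :=
    ⟨inferInstance, (FiniteMeasure.null_iff_toMeasure_null G _).1 hG.2⟩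
  refine ⟨(G : Measure ℝ), hGon, fun k => ?_⟩
  -- a bounded continuous version of `x ^ k`
  set R' := max R 0 with hR'
  let f : ℝ →ᵇ ℝ := BoundedContinuousFunction.mkOfBound
    ⟨fun x => (max 0 (min x R')) ^ k, by fun_prop⟩ (2 * R' ^ k) (fun x y => by
      have hb : ∀ z : ℝ, |(max 0 (min z R')) ^ k| ≤ R' ^ k := fun z => by
        rw [abs_of_nonneg (by positivity)]
        exact pow_le_pow_left₀ (le_max_left _ _)
          (max_le (le_max_right _ _) (min_le_right _ _)) k
      simp only [ContinuousMap.coe_mk]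
      rw [Real.dist_eq]
      refine (abs_sub _ _).trans ?_
      linarith [hb x, hb y])
  have hfx : ∀ (κ : Measure ℝ), On R κ → ∫ x, f x ∂κ = ∫ x, x ^ k ∂κ := by
    intro κ hκ
    refine integral_congr_ae (hκ.ae.mono fun x hx => ?_)
    show (max 0 (min x R')) ^ k = x ^ k
    rw [min_eq_left (hx.2.trans (le_max_left _ _)), max_eq_right hx.1]
  have h1 := (FiniteMeasure.tendsto_iff_forall_integral_tendsto.1 hGt) f
  have h2 : Tendsto (fun n => ∫ x, x ^ k ∂(μ n)) (hyperfilter ℕ : Filter ℕ) (𝓝 (m k)) :=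
    (hm k).mono_left Nat.hyperfilter_le_atTop
  have h3 : (fun n => ∫ x, f x ∂(F n : Measure ℝ)) = fun n => ∫ x, x ^ k ∂(μ n) := by
    funext n
    exact hfx _ (hμ n)
  rw [h3, hfx _ hGon] at h1
  exact tendsto_nhds_unique h1 h2

/-! ### Atoms at `0` and the logarithm -/

/-- positive part of the logarithm (continuous) -/
noncomputable def lp (x : ℝ) : ℝ := Real.log (max x 1)

/-- negative part of the logarithm (zero at `0`) -/
noncomputable def lm (x : ℝ) : ℝ := max (-Real.log x) 0

/-- continuous approximations of `lm` from below -/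
noncomputable def phi (δ x : ℝ) : ℝ := min (|x| / δ) 1 * max (-Real.log (max x δ)) 0

theorem continuous_lp : Continuous lp := by
  unfold lp
  refine Continuous.log (by fun_prop) fun x => ?_
  exact (lt_of_lt_of_le one_pos (le_max_right x 1)).ne'

theorem continuous_phi {δ : ℝ} (hδ : 0 < δ) : Continuous (phi δ) := by
  unfold phi
  refine Continuous.mul (by fun_prop) (Continuous.max (Continuous.neg ?_) continuous_const)
  refine Continuous.log (by fun_prop) fun x => ?_
  exact (lt_of_lt_of_le hδ (le_max_right x δ)).ne'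

theorem lm_nonneg (x : ℝ) : 0 ≤ lm x := le_max_right _ _

theorem lp_nonneg (x : ℝ) : 0 ≤ lp x := Real.log_nonneg (le_max_right _ _)

theorem phi_nonneg {δ : ℝ} (hδ : 0 < δ) (x : ℝ) : 0 ≤ phi δ x :=
  mul_nonneg (le_min (by positivity) zero_le_one) (le_max_right _ _)

theorem measurable_lm : Measurable lm := by
  unfold lm
  fun_prop

theorem phi_le_lm {δ : ℝ} (hδ : 0 < δ) {x : ℝ} (hx : 0 ≤ x) : phi δ x ≤ lm x := by
  rcases hx.eq_or_lt with h | h
  · rw [← h]
    unfold phi lm
    simp
  · unfold phi lm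
    refine (mul_le_of_le_one_left (le_max_right _ _) (min_le_right _ _)).trans ?_
    exact max_le_max (neg_le_neg (Real.log_le_log h (le_max_left _ _))) le_rfl

theorem phi_eq_lm {δ : ℝ} (hδ : 0 < δ) {x : ℝ} (hx : δ ≤ x) : phi δ x = lm x := by
  unfold phi lm
  rw [max_eq_left hx, min_eq_right, one_mul]
  rw [le_div_iff₀ hδ, one_mul]
  exact hx.trans (le_abs_self x)

theorem phi_zero (δ : ℝ) : phi δ 0 = 0 := by
  unfold phi
  simp

theorem lm_zero : lm 0 = 0 := by
  unfold lm
  simp

theorem log_eq {x : ℝ} (hx : 0 ≤ x) : Real.log x = lp x - lm x := by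
  unfold lp lm
  rcases le_total 1 x with h | h
  · rw [max_eq_left h, max_eq_right (neg_nonpos.2 (Real.log_nonneg h)), sub_zero]
  · rw [max_eq_right h, Real.log_one, max_eq_left (neg_nonneg.2 (Real.log_nonpos hx h))]
    ring

theorem lp_le {x : ℝ} (hR : 1 ≤ R) (hx : x ≤ R) : lp x ≤ Real.log R :=
  Real.log_le_log (lt_of_lt_of_le one_pos (le_max_right _ _)) (max_le hx hR)

theorem On.integral_log {μ : Measure ℝ} (h : On R μ) :
    ∫ x in Ioi 0, Real.log x ∂μ = ∫ x, Real.log x ∂μ := by
  rw [setIntegral_eq_integral_of_ae_compl_eq_zero]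
  refine h.ae.mono fun x hx hx' => ?_
  have : x = 0 := le_antisymm (not_lt.1 hx') hx.1
  rw [this, Real.log_zero]

theorem On.integrable_lm {μ : Measure ℝ} (h : On R μ) (hi : Integrable Real.log μ) :
    Integrable lm μ := by
  refine Integrable.mono' (g := fun x => |Real.log x|) hi.abs measurable_lm.aestronglyMeasurable ?_
  refine Filter.Eventually.of_forall fun x => ?_
  rw [Real.norm_eq_abs, abs_of_nonneg (lm_nonneg x)]
  unfold lm
  exact max_le (neg_le_abs _) (abs_nonneg _)

theorem On.integrable_log {μ : Measure ℝ} (h : On R μ) (hi : Integrable lm μ) :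
    Integrable Real.log μ := by
  refine ((h.integrable continuous_lp).sub hi).congr ?_
  refine h.ae.mono fun x hx => ?_
  rw [Pi.sub_apply]
  exact (log_eq hx.1).symm

theorem On.integral_log_eq {μ : Measure ℝ} (h : On R μ) (hi : Integrable Real.log μ) :
    ∫ x, Real.log x ∂μ = ∫ x, lp x ∂μ - ∫ x, lm x ∂μ := by
  rw [← integral_sub (h.integrable continuous_lp) (h.integrable_lm hi)]
  exact integral_congr_ae (h.ae.mono fun x hx => log_eq hx.1)

theorem On.integral_lp_le {μ : Measure ℝ} (h : On R μ) (hR : 1 ≤ R) :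
    ∫ x, lp x ∂μ ≤ Real.log R * μ.real univ := by
  haveI := h.fin
  have h1 : ∀ᵐ x ∂μ, ‖lp x‖ ≤ Real.log R := h.ae.mono fun x hx => by
    rw [Real.norm_eq_abs, abs_of_nonneg (lp_nonneg x)]
    exact lp_le hR hx.2
  exact (le_abs_self _).trans (norm_integral_le_of_norm_le_const h1)

/-- bump at `0` -/
noncomputable def gb (ε x : ℝ) : ℝ := max (1 - |x| / ε) 0

theorem continuous_gb (ε : ℝ) : Continuous (gb ε) := by
  unfold gb
  fun_prop

theorem On.real_zero_le {μ : Measure ℝ} (h : On R μ) (ε : ℝ) : μ.real {0} ≤ ∫ x, gb ε x ∂μ := by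
  haveI := h.fin
  have h1 : μ.real {0} = ∫ x, ({0} : Set ℝ).indicator (fun _ => (1 : ℝ)) x ∂μ := by
    rw [integral_indicator (measurableSet_singleton 0)]
    simp [Measure.real]
  rw [h1]
  refine integral_mono ((integrable_const _).indicator (measurableSet_singleton 0))
    (h.integrable (continuous_gb ε)) fun x => ?_
  by_cases hx : x = 0
  · subst hx
    simp [gb]
  · simp only [Set.indicator_of_notMem (s := ({0} : Set ℝ)) (a := x) (by simpa using hx)]
    exact le_max_right _ _

theorem On.le_real_zero {μ : Measure ℝ} (h : On R μ) {ε : ℝ} (hε : 0 < ε) :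
    ∫ x, gb ε x ∂μ ≤ μ.real {0} + μ.real (Ioo 0 ε) := by
  haveI := h.fin
  have h1 : μ.real {0} + μ.real (Ioo 0 ε) = ∫ x, (({0} : Set ℝ).indicator (fun _ => (1 : ℝ)) x +
      (Ioo 0 ε).indicator (fun _ => (1 : ℝ)) x) ∂μ := by
    rw [integral_add ((integrable_const _).indicator (measurableSet_singleton 0))
      ((integrable_const _).indicator measurableSet_Ioo),
      integral_indicator (measurableSet_singleton 0), integral_indicator measurableSet_Ioo]
    simp [Measure.real]
  rw [h1]
  refine integral_mono_ae (h.integrable (continuous_gb ε))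
    (((integrable_const _).indicator (measurableSet_singleton 0)).add
      ((integrable_const _).indicator measurableSet_Ioo)) (h.ae.mono fun x hx => ?_)
  show gb ε x ≤ ({0} : Set ℝ).indicator (fun _ => (1 : ℝ)) x + (Ioo 0 ε).indicator (fun _ => (1 : ℝ)) x
  have hg1 : gb ε x ≤ 1 := by
    unfold gb
    refine max_le ?_ zero_le_one
    have : 0 ≤ |x| / ε := by positivity
    linarith
  rcases hx.1.eq_or_lt with h0 | h0
  · subst h0
    simpa using hg1
  · rw [Set.indicator_of_notMem (s := ({0} : Set ℝ)) (by simpa using h0.ne'), zero_add]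
    by_cases hxε : x < ε
    · rw [Set.indicator_of_mem (show x ∈ Ioo 0 ε from ⟨h0, hxε⟩)]
      exact hg1
    · rw [Set.indicator_of_notMem (fun hc => hxε hc.2)]
      unfold gb
      refine max_le ?_ le_rfl
      rw [abs_of_pos h0, sub_nonpos, le_div_iff₀ hε, one_mul]
      exact not_lt.1 hxε

theorem On.markov {μ : Measure ℝ} (h : On R μ) (hi : Integrable lm μ) {ε : ℝ} (hε : 0 < ε)
    (hε1 : ε < 1) : μ.real (Ioo 0 ε) * (-Real.log ε) ≤ ∫ x, lm x ∂μ := by
  haveI := h.fin
  have h1 : μ.real (Ioo 0 ε) * (-Real.log ε) =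
      ∫ x, (Ioo 0 ε).indicator (fun _ => -Real.log ε) x ∂μ := by
    rw [integral_indicator measurableSet_Ioo]
    simp
  rw [h1]
  refine integral_mono ((integrable_const _).indicator measurableSet_Ioo) hi fun x => ?_
  show (Ioo 0 ε).indicator (fun _ => -Real.log ε) x ≤ lm x
  by_cases hx : x ∈ Ioo 0 ε
  · rw [Set.indicator_of_mem hx]
    unfold lm
    exact le_max_of_le_left (neg_le_neg (Real.log_le_log hx.1 hx.2.le))
  · rw [Set.indicator_of_notMem hx]
    exact lm_nonneg x

/-- **Lueck's lemma.** Measures on `[0,R]` with nonnegative integral of the logarithm and convergent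
moments: the atoms at zero converge, the logarithm is integrable for the limit and its integral is
at least every asymptotic lower bound. -/
theorem lueck {μ : ℕ → Measure ℝ} {ν : Measure ℝ} (hμ : ∀ n, On R (μ n)) (hν : On R ν)
    (h : ∀ k : ℕ, Tendsto (fun n => ∫ x, x ^ k ∂(μ n)) atTop (𝓝 (∫ x, x ^ k ∂ν)))
    (hi : ∀ n, Integrable Real.log (μ n)) (hl : ∀ n, 0 ≤ ∫ x, Real.log x ∂(μ n)) :
    Tendsto (fun n => (μ n).real {0}) atTop (𝓝 (ν.real {0})) ∧ Integrable Real.log ν ∧
      0 ≤ ∫ x, Real.log x ∂ν := by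
  -- enlarge `R`
  wlog hR : 1 ≤ R generalizing R with H
  · exact H (fun n => (hμ n).mono (le_max_left R 1)) (hν.mono (le_max_left R 1)) (le_max_right R 1)
  haveI := hν.fin
  haveI := fun n => (hμ n).fin
  have hm0 : Tendsto (fun n => (μ n).real univ) atTop (𝓝 (ν.real univ)) := by
    have := h 0
    simpa using this
  obtain ⟨M, hM⟩ := hm0.bddAbove_range
  have hM' : ∀ n, (μ n).real univ ≤ M := fun n => hM ⟨n, rfl⟩
  have hL0 : 0 ≤ Real.log R := Real.log_nonneg hR
  have hM0 : 0 ≤ M := measureReal_nonneg.trans (hM' 0)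
  -- bound of the negative part
  have hlm : ∀ n, ∫ x, lm x ∂(μ n) ≤ Real.log R * M := by
    intro n
    have h1 := (hμ n).integral_log_eq (hi n)
    have h2 := (hμ n).integral_lp_le hR
    have h3 := hl n
    have h4 := mul_le_mul_of_nonneg_left (hM' n) hL0
    linarith
  have hphi : ∀ δ : ℝ, 0 < δ → ∫ x, phi δ x ∂ν ≤ Real.log R * M := by
    intro δ hδ
    refine le_of_tendsto (tendsto_integral hμ hν h (continuous_phi hδ))
      (Eventually.of_forall fun n => ?_)
    refine le_trans ?_ (hlm n)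
    refine integral_mono_ae ((hμ n).integrable (continuous_phi hδ)) ((hμ n).integrable_lm (hi n))
      ((hμ n).ae.mono fun x hx => phi_le_lm hδ hx.1)
  have hpt : ∀ x : ℝ, 0 ≤ x → Tendsto (fun j : ℕ => phi (1 / ((j : ℝ) + 1)) x) atTop (𝓝 (lm x)) := by
    intro x hx
    rcases hx.eq_or_lt with h0 | h0
    · subst h0
      simp only [phi_zero, lm_zero]
      exact tendsto_const_nhds
    · have h1 : ∀ᶠ j : ℕ in atTop, 1 / ((j : ℝ) + 1) < x :=
        tendsto_one_div_add_atTop_nhds_zero_nat.eventually_lt_const h0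
      exact tendsto_const_nhds.congr' (h1.mono fun j hj => (phi_eq_lm (by positivity) hj.le).symm)
  -- integrability for the limit
  have hlmν : Integrable lm ν := by
    refine ⟨measurable_lm.aestronglyMeasurable, ?_⟩
    rw [hasFiniteIntegral_iff_ofReal (Eventually.of_forall lm_nonneg)]
    have h1 : ∫⁻ x, ENNReal.ofReal (lm x) ∂ν ≤
        liminf (fun j : ℕ => ∫⁻ x, ENNReal.ofReal (phi (1 / ((j : ℝ) + 1)) x) ∂ν) atTop := by
      have h2 : ∫⁻ x, ENNReal.ofReal (lm x) ∂ν =
          ∫⁻ x, liminf (fun j : ℕ => ENNReal.ofReal (phi (1 / ((j : ℝ) + 1)) x)) atTop ∂ν := by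
        refine lintegral_congr_ae (hν.ae.mono fun x hx => ?_)
        exact ((ENNReal.continuous_ofReal.tendsto _).comp (hpt x hx.1)).liminf_eq.symm
      rw [h2]
      exact lintegral_liminf_le fun j =>
        ((continuous_phi (by positivity)).measurable).ennreal_ofReal
    refine lt_of_le_of_lt (h1.trans ?_) (ENNReal.ofReal_lt_top (r := Real.log R * M))
    refine liminf_le_of_le (by isBoundedDefault) fun b hb => ?_
    obtain ⟨j, hj⟩ := hb.exists
    refine hj.trans ?_
    rw [← ofReal_integral_eq_lintegral_ofReal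
      (hν.integrable (continuous_phi (by positivity)))
      (Eventually.of_forall fun x => phi_nonneg (by positivity) x)]
    exact ENNReal.ofReal_le_ofReal (hphi _ (by positivity))
  have hiν : Integrable Real.log ν := hν.integrable_log hlmν
  refine ⟨?_, hiν, ?_⟩
  · -- atoms
    have hsmall : Tendsto (fun ε : ℝ => (Real.log R * M + ∫ x, lm x ∂ν) / (-Real.log ε)) (𝓝[>] 0)
        (𝓝 0) := by
      have h1 : Tendsto (fun ε : ℝ => -Real.log ε) (𝓝[>] 0) atTop :=
        tendsto_neg_atBot_atTop.comp Real.tendsto_log_nhdsGT_zero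
      exact h1.const_div_atTop _
    rw [Metric.tendsto_atTop]
    intro η hη
    have h2 : ∀ᶠ ε : ℝ in 𝓝[>] 0, (Real.log R * M + ∫ x, lm x ∂ν) / (-Real.log ε) < η / 2 :=
      hsmall.eventually_lt_const (by positivity)
    have h3 : ∀ᶠ ε : ℝ in 𝓝[>] 0, ε ∈ Ioo (0 : ℝ) 1 := Ioo_mem_nhdsGT one_pos
    obtain ⟨ε, hε1, hε2⟩ := (h2.and h3).exists
    have hlog : 0 < -Real.log ε := by
      have := Real.log_neg hε2.1 hε2.2
      linarith
    have h4 := tendsto_integral hμ hν h (continuous_gb ε)
    rw [Metric.tendsto_atTop] at h4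
    obtain ⟨N, hN⟩ := h4 (η / 2) (by positivity)
    refine ⟨N, fun n hn => ?_⟩
    have h5 := hN n hn
    have a1 := (hμ n).real_zero_le ε
    have a2 := (hμ n).le_real_zero hε2.1
    have a3 := hν.real_zero_le ε
    have a4 := hν.le_real_zero hε2.1
    have a5 := (hμ n).markov ((hμ n).integrable_lm (hi n)) hε2.1 hε2.2
    have a6 := hν.markov hlmν hε2.1 hε2.2
    have i0 : 0 ≤ ∫ x, lm x ∂ν := integral_nonneg lm_nonneg
    have b1 : (μ n).real (Ioo 0 ε) < η / 2 := by
      refine lt_of_le_of_lt ?_ hε1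
      rw [le_div_iff₀ hlog]
      linarith [hlm n]
    have b2 : ν.real (Ioo 0 ε) < η / 2 := by
      refine lt_of_le_of_lt ?_ hε1
      rw [le_div_iff₀ hlog]
      have : 0 ≤ Real.log R * M := mul_nonneg hL0 hM0
      linarith
    rw [Real.dist_eq] at h5 ⊢
    rw [abs_lt] at h5 ⊢
    constructor <;> linarith [h5.1, h5.2]
  · -- the integral of the logarithm
    have h1 : Tendsto (fun j : ℕ => ∫ x, (lp x - phi (1 / ((j : ℝ) + 1)) x) ∂ν) atTop
        (𝓝 (∫ x, Real.log x ∂ν)) := by
      refine tendsto_integral_of_dominated_convergence (fun x => lp x + lm x)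
        (fun j => ?_) ((hν.integrable continuous_lp).add hlmν) (fun j => ?_) ?_
      · exact (continuous_lp.sub (continuous_phi (by positivity))).aestronglyMeasurable
      · refine hν.ae.mono fun x hx => ?_
        rw [Real.norm_eq_abs, abs_le]
        have := phi_le_lm (δ := 1 / ((j : ℝ) + 1)) (by positivity) hx.1
        have := phi_nonneg (δ := 1 / ((j : ℝ) + 1)) (by positivity) x
        have := lp_nonneg x
        have := lm_nonneg x
        constructor <;> linarith
      · refine hν.ae.mono fun x hx => ?_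
        rw [log_eq hx.1]
        exact tendsto_const_nhds.sub (hpt x hx.1)
    refine ge_of_tendsto' h1 fun j => ?_
    have hδ : 0 < 1 / ((j : ℝ) + 1) := by positivity
    refine ge_of_tendsto' (tendsto_integral hμ hν h
      (continuous_lp.sub (continuous_phi hδ))) fun n => (hl n).trans ?_
    refine integral_mono_ae (hi n) ((hμ n).integrable (continuous_lp.sub (continuous_phi hδ)))
      ((hμ n).ae.mono fun x hx => ?_)
    show Real.log x ≤ lp x - phi (1 / ((j : ℝ) + 1)) x
    rw [log_eq hx.1]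
    have := phi_le_lm hδ hx.1
    linarith

end Pool.H29.Mom
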